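import Pool.Agent.Helper1.SD.Defs2

set_option autoImplicit false

/-!
Basic lemmas on finitely generated cones in `ℝ^N`, with Farkas' lemma.
-/

namespace Pool.Agent.Helper1.SD

open Matrix

variable {N : ℕ}

theorem subset_coneOf (G : Set (Fin N → ℝ)) : G ⊆ coneOf G := fun g hg =>
  ⟨{g}, fun _ => 1, by simpa using hg, by simp, by simp⟩

theorem coneOf_mono {G H : Set (Fin N → ℝ)} (h : G ⊆ H) : coneOf G ⊆ coneOf H :=
  fun _ ⟨t, c, h1, h2, h3⟩ => ⟨t, c, fun v hv => h (h1 v hv), h2, h3⟩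

theorem zero_mem_coneOf (G : Set (Fin N → ℝ)) : 0 ∈ coneOf G :=
  ⟨∅, fun _ => 0, by simp, by simp, by simp⟩

theorem add_mem_coneOf {G : Set (Fin N → ℝ)} {x y : Fin N → ℝ} (hx : x ∈ coneOf G)
    (hy : y ∈ coneOf G) : x + y ∈ coneOf G := by
  classical
  obtain ⟨t, c, h1, h2, rfl⟩ := hx
  obtain ⟨u, e, h3, h4, rfl⟩ := hy
  refine ⟨t ∪ u, fun v => (if v ∈ t then c v else 0) + (if v ∈ u then e v else 0), ?_, ?_, ?_⟩
  · intro v hv
    rcases Finset.mem_union.1 hv with hv | hv
    · exact h1 v hv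
    · exact h3 v hv
  · intro v _
    refine add_nonneg ?_ ?_
    · split_ifs with h
      · exact h2 v h
      · exact le_rfl
    · split_ifs with h
      · exact h4 v h
      · exact le_rfl
  · simp only [add_smul, Finset.sum_add_distrib, ite_smul, zero_smul, Finset.sum_ite_mem,
      Finset.union_inter_cancel_left, Finset.union_inter_cancel_right]

theorem smul_mem_coneOf {G : Set (Fin N → ℝ)} {x : Fin N → ℝ} {c : ℝ} (hc : 0 ≤ c)
    (hx : x ∈ coneOf G) : c • x ∈ coneOf G := by
  obtain ⟨t, e, h1, h2, rfl⟩ := hx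
  exact ⟨t, fun v => c * e v, h1, fun v hv => mul_nonneg hc (h2 v hv), by
    simp [Finset.smul_sum, mul_smul]⟩

theorem sum_mem_coneOf {G : Set (Fin N → ℝ)} {ι : Type*} (s : Finset ι) (f : ι → (Fin N → ℝ))
    (h : ∀ i ∈ s, f i ∈ coneOf G) : ∑ i ∈ s, f i ∈ coneOf G :=
  Finset.sum_induction f (fun x => x ∈ coneOf G) (fun _ _ => add_mem_coneOf) (zero_mem_coneOf G) h

/-- induction principle: anything convex-conical containing `G` contains `coneOf G` -/
theorem coneOf_subset {G X : Set (Fin N → ℝ)} (hG : G ⊆ X) (h0 : 0 ∈ X)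
    (hadd : ∀ x ∈ X, ∀ y ∈ X, x + y ∈ X) (hsmul : ∀ c : ℝ, 0 ≤ c → ∀ x ∈ X, c • x ∈ X) :
    coneOf G ⊆ X := by
  rintro x ⟨t, c, h1, h2, rfl⟩
  exact Finset.sum_induction _ (fun x => x ∈ X) (fun x y hx hy => hadd x hx y hy) h0
    (fun v hv => hsmul _ (h2 v hv) _ (hG (h1 v hv)))

theorem mem_coneOf_range {ι : Type*} [Fintype ι] (b : ι → (Fin N → ℝ)) (x : Fin N → ℝ) :
    x ∈ coneOf (Set.range b) ↔ ∃ c : ι → ℝ, (∀ i, 0 ≤ c i) ∧ x = ∑ i, c i • b i := by
  classical
  constructor
  · intro hx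
    refine coneOf_subset (X := {x | ∃ c : ι → ℝ, (∀ i, 0 ≤ c i) ∧ x = ∑ i, c i • b i})
      ?_ ?_ ?_ ?_ hx
    · rintro _ ⟨i, rfl⟩
      refine ⟨Pi.single i 1, fun j => ?_, ?_⟩
      · by_cases h : j = i
        · subst h; simp
        · simp [Pi.single_eq_of_ne h]
      · rw [Finset.sum_eq_single i]
        · simp
        · intro j _ hj
          simp [Pi.single_eq_of_ne hj]
        · simp
    · exact ⟨fun _ => 0, fun _ => le_rfl, by simp⟩
    · rintro x ⟨c, hc, rfl⟩ y ⟨e, he, rfl⟩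
      exact ⟨fun i => c i + e i, fun i => add_nonneg (hc i) (he i), by
        simp [add_smul, Finset.sum_add_distrib]⟩
    · rintro r hr x ⟨c, hc, rfl⟩
      exact ⟨fun i => r * c i, fun i => mul_nonneg hr (hc i), by
        simp [Finset.smul_sum, mul_smul]⟩
  · rintro ⟨c, hc, rfl⟩
    exact sum_mem_coneOf _ _ fun i _ => smul_mem_coneOf (hc i) (subset_coneOf _ ⟨i, rfl⟩)

theorem zero_mem_dualOf (G : Set (Fin N → ℝ)) : 0 ∈ dualOf G := by
  intro g _
  simp

theorem add_mem_dualOf {G : Set (Fin N → ℝ)} {x y : Fin N → ℝ} (hx : x ∈ dualOf G)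
    (hy : y ∈ dualOf G) : x + y ∈ dualOf G := by
  intro g hg
  rw [add_dotProduct]
  exact add_nonneg (hx g hg) (hy g hg)

theorem smul_mem_dualOf {G : Set (Fin N → ℝ)} {x : Fin N → ℝ} {c : ℝ} (hc : 0 ≤ c)
    (hx : x ∈ dualOf G) : c • x ∈ dualOf G := by
  intro g hg
  rw [smul_dotProduct, smul_eq_mul]
  exact mul_nonneg hc (hx g hg)

theorem dualOf_anti {G H : Set (Fin N → ℝ)} (h : G ⊆ H) : dualOf H ⊆ dualOf G :=
  fun _ hx g hg => hx g (h hg)

theorem dualOf_coneOf (G : Set (Fin N → ℝ)) : dualOf (coneOf G) = dualOf G := by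
  refine Set.Subset.antisymm (dualOf_anti (subset_coneOf G)) ?_
  intro x hx y hy
  refine coneOf_subset (X := {y | 0 ≤ x ⬝ᵥ y}) hx ?_ ?_ ?_ hy
  · simp
  · intro u hu v hv
    simp only [Set.mem_ofPred_eq] at hu hv ⊢
    rw [dotProduct_add]
    exact add_nonneg hu hv
  · intro c hc u hu
    simp only [Set.mem_ofPred_eq] at hu ⊢
    rw [dotProduct_smul, smul_eq_mul]
    exact mul_nonneg hc hu

theorem span_coneOf (G : Set (Fin N → ℝ)) :
    Submodule.span ℝ (coneOf G) = Submodule.span ℝ G := by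
  refine le_antisymm (Submodule.span_le.2 ?_) (Submodule.span_mono (subset_coneOf G))
  exact coneOf_subset Submodule.subset_span (Submodule.zero_mem _)
    (fun x hx y hy => Submodule.add_mem _ hx hy) (fun c _ x hx => Submodule.smul_mem _ c hx)

/-- the face cut out of `coneOf G` by a functional nonnegative on `G` -/
theorem perpIn_coneOf {G : Set (Fin N → ℝ)} {g : Fin N → ℝ} (hg : g ∈ dualOf G) :
    perpIn (coneOf G) g = coneOf {v | v ∈ G ∧ g ⬝ᵥ v = 0} := by
  classical
  ext x
  constructor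
  · rintro ⟨⟨t, c, h1, h2, rfl⟩, h0⟩
    have hsum : ∑ v ∈ t, c v * (g ⬝ᵥ v) = 0 := by
      rw [← h0, dotProduct_sum]
      exact Finset.sum_congr rfl fun v _ => by rw [dotProduct_smul, smul_eq_mul]
    have hz : ∀ v ∈ t, c v * (g ⬝ᵥ v) = 0 :=
      (Finset.sum_eq_zero_iff_of_nonneg fun v hv => mul_nonneg (h2 v hv) (hg v (h1 v hv))).1 hsum
    refine ⟨t.filter fun v => g ⬝ᵥ v = 0, c, ?_, ?_, ?_⟩
    · intro v hv
      rw [Finset.mem_filter] at hv
      exact ⟨h1 v hv.1, hv.2⟩
    · intro v hv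
      exact h2 v (Finset.mem_filter.1 hv).1
    · rw [Finset.sum_filter]
      refine Finset.sum_congr rfl fun v hv => ?_
      split_ifs with h
      · rfl
      · rcases mul_eq_zero.1 (hz v hv) with h' | h'
        · rw [h', zero_smul]
        · exact absurd h' h
  · intro hx
    refine ⟨coneOf_mono (fun v hv => hv.1) hx, ?_⟩
    refine coneOf_subset (X := {y | g ⬝ᵥ y = 0}) (fun v hv => hv.2) ?_ ?_ ?_ hx
    · simp
    · intro u hu v hv
      simp only [Set.mem_ofPred_eq] at hu hv ⊢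
      rw [dotProduct_add, hu, hv, add_zero]
    · intro c _ u hu
      simp only [Set.mem_ofPred_eq] at hu ⊢
      rw [dotProduct_smul, hu, smul_zero]

theorem isSimplicialCone_of_subset {n : ℕ} {s : Fin n → (Fin N → ℝ)}
    (hs : LinearIndependent ℝ s) {Z : Set (Fin N → ℝ)} (hZ : ∀ z ∈ Z, z ∈ Set.range s) :
    IsSimplicialCone (coneOf Z) := by
  classical
  let I : Type := {i : Fin n // s i ∈ Z}
  let e : Fin (Fintype.card I) ≃ I := (Fintype.equivFin I).symm
  refine ⟨Fintype.card I, fun j => s (e j).1, ?_, ?_⟩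
  · exact hs.comp (fun j => (e j).1) (Subtype.val_injective.comp e.injective)
  · congr 1
    ext z
    constructor
    · intro hz
      obtain ⟨i, rfl⟩ := hZ z hz
      exact ⟨e.symm ⟨i, hz⟩, by simp⟩
    · rintro ⟨j, rfl⟩
      exact (e j).2

/-- Farkas' alternative for finite families. -/
theorem farkas_alt (n : ℕ) : ∀ (a : Fin n → (Fin N → ℝ)) (x : Fin N → ℝ),
    (∃ c : Fin n → ℝ, (∀ i, 0 ≤ c i) ∧ x = ∑ i, c i • a i) ∨
      ∃ y : Fin N → ℝ, (∀ i, 0 ≤ y ⬝ᵥ a i) ∧ y ⬝ᵥ x < 0 := by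
  induction n with
  | zero =>
    intro a x
    by_cases hx : x = 0
    · exact Or.inl ⟨fun _ => 0, fun _ => le_rfl, by simp [hx]⟩
    · refine Or.inr ⟨-x, fun i => i.elim0, ?_⟩
      rw [neg_dotProduct, neg_lt_zero]
      have h1 : 0 ≤ x ⬝ᵥ x := by
        simp only [dotProduct]
        exact Finset.sum_nonneg fun i _ => mul_self_nonneg _
      rcases h1.lt_or_eq with h | h
      · exact h
      · exact absurd (dotProduct_self_eq_zero.1 h.symm) hx
  | succ n ih =>
    intro a x
    rcases ih (fun i => a i.castSucc) x with ⟨c, hc, hx⟩ | ⟨y, hy, hyx⟩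
    · left
      refine ⟨Fin.snoc c 0, ?_, ?_⟩
      · intro i
        refine Fin.lastCases ?_ (fun i => ?_) i
        · simp
        · simpa using hc i
      · rw [Fin.sum_univ_castSucc]
        simp [hx]
    · by_cases hl : 0 ≤ y ⬝ᵥ a (Fin.last n)
      · right
        refine ⟨y, fun i => ?_, hyx⟩
        refine Fin.lastCases hl (fun i => hy i) i
      · push Not at hl
        set w := a (Fin.last n) with hw
        set q := y ⬝ᵥ w with hq
        have hq0 : q ≠ 0 := hl.ne
        rcases ih (fun i => a i.castSucc - ((y ⬝ᵥ a i.castSucc) / q) • w)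
          (x - ((y ⬝ᵥ x) / q) • w) with ⟨c, hc, hx⟩ | ⟨z, hz, hzx⟩
        · left
          refine ⟨Fin.snoc c (∑ i, c i * (-(y ⬝ᵥ a i.castSucc) / q) + (y ⬝ᵥ x) / q), ?_, ?_⟩
          · intro i
            refine Fin.lastCases ?_ (fun i => ?_) i
            · rw [Fin.snoc_last]
              refine add_nonneg (Finset.sum_nonneg fun i _ => mul_nonneg (hc i) ?_) ?_
              · exact div_nonneg_of_nonpos (neg_nonpos.2 (hy i)) hl.le
              · exact div_nonneg_of_nonpos hyx.le hl.le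
            · simpa using hc i
          · rw [Fin.sum_univ_castSucc]
            simp only [Fin.snoc_castSucc, Fin.snoc_last]
            rw [← hw, add_smul, Finset.sum_smul]
            have h2 : x = ∑ i, c i • (a i.castSucc - ((y ⬝ᵥ a i.castSucc) / q) • w) +
                ((y ⬝ᵥ x) / q) • w := by
              rw [← hx]; abel
            conv_lhs => rw [h2]
            rw [← add_assoc]
            congr 1
            rw [← Finset.sum_add_distrib]
            refine Finset.sum_congr rfl fun i _ => ?_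
            rw [smul_sub, smul_smul, sub_eq_add_neg, ← neg_smul]
            congr 2
            ring
        · right
          refine ⟨z - ((z ⬝ᵥ w) / q) • y, ?_, ?_⟩
          · intro i
            refine Fin.lastCases ?_ (fun i => ?_) i
            · rw [← hw, sub_dotProduct, smul_dotProduct, ← hq, smul_eq_mul,
                div_mul_cancel₀ _ hq0, sub_self]
            · have := hz i
              simp only [dotProduct_sub, dotProduct_smul, smul_eq_mul] at this
              rw [sub_dotProduct, smul_dotProduct, smul_eq_mul]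
              have h3 : z ⬝ᵥ a i.castSucc - z ⬝ᵥ w / q * y ⬝ᵥ a i.castSucc =
                  z ⬝ᵥ a i.castSucc - y ⬝ᵥ a i.castSucc / q * z ⬝ᵥ w := by ring
              rw [h3]; exact this
          · simp only [dotProduct_sub, dotProduct_smul, smul_eq_mul] at hzx
            rw [sub_dotProduct, smul_dotProduct, smul_eq_mul]
            have h3 : z ⬝ᵥ x - z ⬝ᵥ w / q * y ⬝ᵥ x = z ⬝ᵥ x - y ⬝ᵥ x / q * z ⬝ᵥ w := by ring
            rw [h3]; exact hzx

/-- Farkas' lemma -/
theorem dualOf_dualOf {G : Set (Fin N → ℝ)} (hG : G.Finite) : dualOf (dualOf G) = coneOf G := by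
  classical
  refine Set.Subset.antisymm ?_ ?_
  · intro x hx
    obtain ⟨n, f, hf⟩ : ∃ (n : ℕ) (f : Fin n → (Fin N → ℝ)), Set.range f = G := by
      have := hG.to_subtype
      obtain ⟨n, ⟨e⟩⟩ := Finite.exists_equiv_fin G
      refine ⟨n, fun i => (e.symm i).1, ?_⟩
      ext z
      constructor
      · rintro ⟨i, rfl⟩; exact (e.symm i).2
      · intro hz; exact ⟨e ⟨z, hz⟩, by simp⟩
    rcases farkas_alt n f x with ⟨c, hc, h⟩ | ⟨y, hy, h⟩
    · rw [← hf, mem_coneOf_range]
      exact ⟨c, hc, h⟩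
    · exfalso
      have hyG : y ∈ dualOf G := by
        intro g hg
        rw [← hf] at hg
        obtain ⟨i, rfl⟩ := hg
        exact hy i
      have := hx y hyG
      rw [dotProduct_comm] at this
      linarith
  · intro x hx y hy
    rw [← dualOf_coneOf] at hy
    rw [dotProduct_comm]
    exact hy x hx

end Pool.Agent.Helper1.SD
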