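import Mathlib

set_option autoImplicit false

/-!
Self-dual k-simplicial polytopes: definitions.

First part: polytopes, faces, simplices, k-simplicial and self-dual polytopes in `ℝ^N`.
Second part: finitely generated cones in `ℝ^N` (tools for the construction).
-/

namespace Pool.Agent.Helper1.SD

open Matrix

/-! ### Polytopes -/

/-- `P` is a convex polytope in `ℝ^N`: the convex hull of a finite set. -/
def IsPolytope {N : ℕ} (P : Set (Fin N → ℝ)) : Prop :=
  ∃ S : Set (Fin N → ℝ), S.Finite ∧ P = convexHull ℝ S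

/-- The dimension of (the affine hull of) a set. -/
noncomputable def adim {N : ℕ} (F : Set (Fin N → ℝ)) : ℕ :=
  Module.finrank ℝ (vectorSpan ℝ F)

/-- `F` is a (nonempty) simplex: the convex hull of an affinely independent family. -/
def IsSimplex {N : ℕ} (F : Set (Fin N → ℝ)) : Prop :=
  ∃ (m : ℕ) (v : Fin (m + 1) → (Fin N → ℝ)), AffineIndependent ℝ v ∧ F = convexHull ℝ (Set.range v)

/-- The faces of `P` (the sets of maximisers of linear functionals, and the empty face), ordered by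
inclusion. The improper faces `∅` and `P` are included. -/
abbrev Face {N : ℕ} (P : Set (Fin N → ℝ)) : Type := {F : Set (Fin N → ℝ) // IsExposed ℝ P F}

/-- Every nonempty face of dimension at most `k` is a simplex. -/
def KSimplicial {N : ℕ} (k : ℕ) (P : Set (Fin N → ℝ)) : Prop :=
  ∀ F : Set (Fin N → ℝ), IsExposed ℝ P F → F.Nonempty → adim F ≤ k → IsSimplex F

/-- The face lattice admits an inclusion-reversing bijection onto itself. -/
def SelfDual {N : ℕ} (P : Set (Fin N → ℝ)) : Prop :=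
  Nonempty (Face P ≃o (Face P)ᵒᵈ)

/-- Combinatorial isomorphism: the face lattices are isomorphic. -/
def CombIso {M N : ℕ} (P : Set (Fin M → ℝ)) (Q : Set (Fin N → ℝ)) : Prop :=
  Nonempty (Face P ≃o Face Q)

/-! ### Cones -/

/-- The convex cone generated by `G`: nonnegative finite combinations. -/
def coneOf {N : ℕ} (G : Set (Fin N → ℝ)) : Set (Fin N → ℝ) :=
  {x | ∃ (t : Finset (Fin N → ℝ)) (c : (Fin N → ℝ) → ℝ),
    (∀ v ∈ t, v ∈ G) ∧ (∀ v ∈ t, 0 ≤ c v) ∧ x = ∑ v ∈ t, c v • v}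

/-- The dual cone of `G` (with respect to the dot product). -/
def dualOf {N : ℕ} (G : Set (Fin N → ℝ)) : Set (Fin N → ℝ) :=
  {x | ∀ g ∈ G, 0 ≤ x ⬝ᵥ g}

/-- The face of `C` cut out by `g`. -/
def perpIn {N : ℕ} (C : Set (Fin N → ℝ)) (g : Fin N → ℝ) : Set (Fin N → ℝ) :=
  {x | x ∈ C ∧ g ⬝ᵥ x = 0}

/-- `F` is a simplicial cone (generated by linearly independent vectors; `{0}` allowed). -/
def IsSimplicialCone {N : ℕ} (F : Set (Fin N → ℝ)) : Prop :=
  ∃ (m : ℕ) (b : Fin m → (Fin N → ℝ)), LinearIndependent ℝ b ∧ F = coneOf (Set.range b)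

/-- Each face `C ∩ g^⊥`, `g ∈ D`, is simplicial or spans a space of dimension at least `k + 2`. -/
def KS {N : ℕ} (k : ℕ) (C D : Set (Fin N → ℝ)) : Prop :=
  ∀ g ∈ D, IsSimplicialCone (perpIn C g) ∨
    k + 2 ≤ Module.finrank ℝ (Submodule.span ℝ (perpIn C g))

/-- The cones from which the polytopes are cut: finitely generated self-dual cones whose faces of
dimension at most `k + 1` are simplicial, with a witness that the cone is not simplicial. -/
structure GoodCone (k : ℕ) {N : ℕ} (K : Set (Fin N → ℝ)) : Prop where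
  selfdual : dualOf K = K
  fg : ∃ G : Set (Fin N → ℝ), G.Finite ∧ K = coneOf G
  ks : KS k K K
  witness : ∃ a ∈ K, ∃ r ∈ K, ∃ y ∈ K,
    (∀ w ∈ K, (∀ z ∈ K, z ⬝ᵥ a = 0 → z ⬝ᵥ w = 0) → ∃ t : ℝ, w = t • a) ∧
    0 < a ⬝ᵥ r ∧ 0 < a ⬝ᵥ y ∧ r ⬝ᵥ y = 0

end Pool.Agent.Helper1.SD
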