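import Pool.Agent.Helper1.SD.Defs

set_option autoImplicit false

/-!
Further definitions for the construction: reflection data and the covering condition.
-/

namespace Pool.Agent.Helper1.SD

open Matrix

/-- The section of the cone `K` by the hyperplane `h ⬝ x = 1`. -/
def slice {N : ℕ} (K : Set (Fin N → ℝ)) (h : Fin N → ℝ) : Set (Fin N → ℝ) :=
  {x | x ∈ K ∧ h ⬝ᵥ x = 1}

/-- Reflection of `x` in the hyperplane orthogonal to `a`. -/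
noncomputable def refl {N : ℕ} (a x : Fin N → ℝ) : Fin N → ℝ :=
  x - (2 * (a ⬝ᵥ x) / (a ⬝ᵥ a)) • a

/-- Two finite spanning sets invariant under the reflections in finitely many vectors `α i`
that are positive on some vector `ρ`. -/
structure RefSys (N : ℕ) where
  m : ℕ
  α : Fin m → (Fin N → ℝ)
  ρ : Fin N → ℝ
  pos : ∀ i, 0 < α i ⬝ᵥ ρ
  A : Set (Fin N → ℝ)
  B : Set (Fin N → ℝ)
  finA : A.Finite
  finB : B.Finite
  spanA : Submodule.span ℝ A = ⊤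
  reflA : ∀ i, ∀ a ∈ A, refl (α i) a ∈ A
  reflB : ∀ i, ∀ b ∈ B, refl (α i) b ∈ B

/-- `Z` lies in a linearly independent family or contains `k + 2` linearly independent vectors. -/
def Cover {N : ℕ} (k : ℕ) (Z : Set (Fin N → ℝ)) : Prop :=
  (∃ (n : ℕ) (s : Fin n → (Fin N → ℝ)), LinearIndependent ℝ s ∧ ∀ z ∈ Z, z ∈ Set.range s) ∨
  (∃ t : Fin (k + 2) → (Fin N → ℝ), LinearIndependent ℝ t ∧ ∀ i, t i ∈ Z)

/-- The hypotheses under which the two sets of a reflection system generate mutually dual cones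
with the simpliciality property `KS k` on both sides. -/
structure RefSys.Good {N : ℕ} (k : ℕ) (R : RefSys N) : Prop where
  nonneg : ∀ a ∈ R.A, ∀ b ∈ R.B, 0 ≤ a ⬝ᵥ b
  key : ∀ x y : Fin N → ℝ, (∀ i, 0 ≤ R.α i ⬝ᵥ x) → (∀ i, R.α i ⬝ᵥ y ≤ 0) →
    (∀ b ∈ R.B, 0 ≤ x ⬝ᵥ b) → (∀ a ∈ R.A, 0 ≤ y ⬝ᵥ a) → 0 ≤ x ⬝ᵥ y
  coverA : ∀ y : Fin N → ℝ, (∀ i, R.α i ⬝ᵥ y ≤ 0) → (∀ a ∈ R.A, 0 ≤ y ⬝ᵥ a) →
    Cover k {a | a ∈ R.A ∧ y ⬝ᵥ a = 0}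
  coverB : ∀ x : Fin N → ℝ, (∀ i, 0 ≤ R.α i ⬝ᵥ x) → (∀ b ∈ R.B, 0 ≤ x ⬝ᵥ b) →
    Cover k {b | b ∈ R.B ∧ x ⬝ᵥ b = 0}

end Pool.Agent.Helper1.SD
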