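import Pool.Agent.Helper1.SD.E8Cover

set_option autoImplicit false

/-!
Faces of the cone over `2_41`.
-/

namespace Pool.Agent.Helper1.SD.E8

open Matrix

noncomputable def T1 : Fin 6 → (Fin 9 → ℝ) := ![emb (w 0) 1, emb (w 1) 1, emb (w 2) 1,
  emb (w 3) 1, emb (w 4) 1, emb v5 1]
noncomputable def T2 : Fin 6 → (Fin 9 → ℝ) := ![emb (w 0) 1, emb (w 1) 1, emb (w 2) 1,
  emb (w 3) 1, emb (w 4) 1, emb (w 5) 1]

theorem sum_six (f : Fin 6 → ℝ) : ∑ i, f i = f 0 + f 1 + f 2 + f 3 + f 4 + f 5 := by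
  rw [Fin.sum_univ_castSucc, Fin.sum_univ_five]
  rfl

theorem T1_li : LinearIndependent ℝ T1 := by
  rw [Fintype.linearIndependent_iff]
  intro g hg
  have e : ∀ j, ∑ i, g i * T1 i j = 0 := fun j => by
    have := congrFun hg j
    simpa [Finset.sum_apply] using this
  have e0 := e 0
  have e1 := e 1
  have e2 := e 2
  have e3 := e 3
  have e4 := e 4
  have e7 := e 7
  have e8 := e 8
  rw [sum_six] at e0 e1 e2 e3 e4 e7 e8
  simp [T1, emb, w, v5] at e0 e1 e2 e3 e4 e7 e8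
  intro i
  fin_cases i <;> simp <;> linarith

theorem T2_li : LinearIndependent ℝ T2 := by
  rw [Fintype.linearIndependent_iff]
  intro g hg
  have e : ∀ j, ∑ i, g i * T2 i j = 0 := fun j => by
    have := congrFun hg j
    simpa [Finset.sum_apply] using this
  have e0 := e 0
  have e1 := e 1
  have e2 := e 2
  have e3 := e 3
  have e4 := e 4
  have e5 := e 5
  have e7 := e 7
  rw [sum_six] at e0 e1 e2 e3 e4 e5 e7
  simp [T2, emb, w] at e0 e1 e2 e3 e4 e5 e7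
  intro i
  fin_cases i <;> simp <;> linarith

/-- expansion of a functional in fundamental weights -/
theorem idA (y : Fin 9 → ℝ) (z : Z8) : 4 * (y ⬝ᵥ emb z 1) = 4 * (y ⬝ᵥ emb (w 0) 1) +
    (-(emb (αs 0) 0 ⬝ᵥ y)) * (16 - ip (w 0) z) +
    (-(emb (αs 1) 0 ⬝ᵥ y)) * (28 - (ip (w 0) z + ip (w 1) z)) +
    (-(emb (αs 2) 0 ⬝ᵥ y)) * (40 - (ip (w 0) z + ip (w 1) z + ip (w 2) z)) +
    (-(emb (αs 3) 0 ⬝ᵥ y)) *
      ((64 - (ip (w 0) z + ip (w 1) z + ip (w 2) z + ip (w 3) z + ip v5 z)) / 2) +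
    (-(emb (αs 4) 0 ⬝ᵥ y)) * (24 - (ip (rr 7) z + ip (rr 6) z + ip (rr 5) z)) +
    (-(emb (αs 5) 0 ⬝ᵥ y)) * (16 - (ip (rr 7) z + ip (rr 6) z)) +
    (-(emb (αs 6) 0 ⬝ᵥ y)) * (8 - ip (rr 7) z) +
    (-(emb (αs 7) 0 ⬝ᵥ y)) * (20 - ip y0 z) := by
  simp only [emb_dot, dot_emb, ip_eq]
  simp [αs, w, rr, v5, y0]
  ring

theorem mem_T1_of {z : Z8} (h : z = w 0 ∨ z = w 1 ∨ z = w 2) : emb z 1 ∈ Set.range T1 := by
  rcases h with rfl | rfl | rfl
  · exact ⟨0, rfl⟩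
  · exact ⟨1, rfl⟩
  · exact ⟨2, rfl⟩

theorem mem_T1_V {z : Z8} (h : ∃ i, z = famV i) : emb z 1 ∈ Set.range T1 := by
  obtain ⟨i, rfl⟩ := h
  fin_cases i
  · exact ⟨0, rfl⟩
  · exact ⟨1, rfl⟩
  · exact ⟨2, rfl⟩
  · exact ⟨3, rfl⟩
  · exact ⟨5, rfl⟩

theorem mem_T1_W {z : Z8} (h : ∃ i, z = famW i) : emb z 1 ∈ Set.range T1 := by
  obtain ⟨i, rfl⟩ := h
  fin_cases i
  · exact ⟨0, rfl⟩
  · exact ⟨1, rfl⟩
  · exact ⟨2, rfl⟩
  · exact ⟨3, rfl⟩
  · exact ⟨4, rfl⟩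

theorem sumW {z : Z8} : ip (w 0) z + ip (w 1) z + ip (w 2) z + ip (w 3) z + ip (w 4) z =
    (ip (rr 7) z + ip (rr 6) z + ip (rr 5) z) + 2 * ip y0 z := by
  simp only [ip_eq]
  simp [w, rr, y0]
  ring

theorem coverA (y : Fin 9 → ℝ) (hy : ∀ i, emb (αs i) 0 ⬝ᵥ y ≤ 0)
    (hyA : ∀ a ∈ SA, 0 ≤ y ⬝ᵥ a) : Cover 4 {a | a ∈ SA ∧ y ⬝ᵥ a = 0} := by
  have hW : 0 ≤ y ⬝ᵥ emb (w 0) 1 := hyA _ ⟨_, w_A0 0, rfl⟩
  -- nonnegativity of the coefficients
  have n0 := neg_nonneg.2 (hy 0)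
  have n1 := neg_nonneg.2 (hy 1)
  have n2 := neg_nonneg.2 (hy 2)
  have n3 := neg_nonneg.2 (hy 3)
  have n4 := neg_nonneg.2 (hy 4)
  have n5 := neg_nonneg.2 (hy 5)
  have n6 := neg_nonneg.2 (hy 6)
  have n7 := neg_nonneg.2 (hy 7)
  -- the consequences of a zero
  have main : ∀ z, A0 z → y ⬝ᵥ emb z 1 = 0 → y ⬝ᵥ emb (w 0) 1 = 0 ∧
      (-(emb (αs 0) 0 ⬝ᵥ y) = 0 ∨ z = w 0 ∨ z = w 1 ∨ z = w 2) ∧
      (-(emb (αs 1) 0 ⬝ᵥ y) = 0 ∨ z = w 0 ∨ z = w 1 ∨ z = w 2) ∧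
      (-(emb (αs 2) 0 ⬝ᵥ y) = 0 ∨ z = w 0 ∨ z = w 1 ∨ z = w 2) ∧
      (-(emb (αs 3) 0 ⬝ᵥ y) = 0 ∨ ∃ i, z = famV i) ∧
      (-(emb (αs 4) 0 ⬝ᵥ y) = 0 ∨ -(emb (αs 7) 0 ⬝ᵥ y) = 0 ∨ ∃ i, z = famW i) := by
    intro z hz h0
    have hid := idA y z
    rw [h0] at hid
    have i0 : ip (w 0) z ≤ 16 := ip_le_AA' (w_A0 0) hz
    have i1 := (G1 hz).1
    have i2 := (G2 hz).1
    have i3 := (G3 hz).1
    have r7 := ip_le_AR hz (rr_R 7)
    have r6 := ip_le_AR hz (rr_R 6)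
    have r5 := ip_le_AR hz (rr_R 5)
    have iy := ip_le_AY hz y0_Y
    rw [ip_comm] at r7 r6 r5 iy
    have c0 : (0 : ℝ) ≤ 16 - ip (w 0) z := by exact_mod_cast (by linarith : (0 : ℤ) ≤ 16 - ip (w 0) z)
    have c1 : (0 : ℝ) ≤ 28 - (ip (w 0) z + ip (w 1) z) := by
      exact_mod_cast (by linarith : (0 : ℤ) ≤ 28 - (ip (w 0) z + ip (w 1) z))
    have c2 : (0 : ℝ) ≤ 40 - (ip (w 0) z + ip (w 1) z + ip (w 2) z) := by
      exact_mod_cast (by linarith : (0 : ℤ) ≤ 40 - (ip (w 0) z + ip (w 1) z + ip (w 2) z))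
    have c3 : (0 : ℝ) ≤ (64 - (ip (w 0) z + ip (w 1) z + ip (w 2) z + ip (w 3) z + ip v5 z)) / 2 := by
      refine div_nonneg ?_ (by norm_num)
      exact_mod_cast (by linarith : (0 : ℤ) ≤
        64 - (ip (w 0) z + ip (w 1) z + ip (w 2) z + ip (w 3) z + ip v5 z))
    have c4 : (0 : ℝ) ≤ 24 - (ip (rr 7) z + ip (rr 6) z + ip (rr 5) z) := by
      exact_mod_cast (by linarith : (0 : ℤ) ≤ 24 - (ip (rr 7) z + ip (rr 6) z + ip (rr 5) z))
    have c5 : (0 : ℝ) ≤ 16 - (ip (rr 7) z + ip (rr 6) z) := by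
      exact_mod_cast (by linarith : (0 : ℤ) ≤ 16 - (ip (rr 7) z + ip (rr 6) z))
    have c6 : (0 : ℝ) ≤ 8 - ip (rr 7) z := by
      exact_mod_cast (by linarith : (0 : ℤ) ≤ 8 - ip (rr 7) z)
    have c7 : (0 : ℝ) ≤ 20 - ip y0 z := by
      exact_mod_cast (by linarith : (0 : ℤ) ≤ 20 - ip y0 z)
    have p0 := mul_nonneg n0 c0
    have p1 := mul_nonneg n1 c1
    have p2 := mul_nonneg n2 c2
    have p3 := mul_nonneg n3 c3
    have p4 := mul_nonneg n4 c4
    have p5 := mul_nonneg n5 c5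
    have p6 := mul_nonneg n6 c6
    have p7 := mul_nonneg n7 c7
    refine ⟨by linarith, ?_, ?_, ?_, ?_, ?_⟩
    · rcases mul_eq_zero.1 (le_antisymm (by linarith) p0) with h | h
      · exact Or.inl h
      · right; left
        have h1 : ip (w 0) z = 16 := by exact_mod_cast (by linarith : (ip (w 0) z : ℝ) = 16)
        by_contra hne
        have := ip_le_AA (w_A0 0) hz (fun hc => hne hc.symm)
        omega
    · rcases mul_eq_zero.1 (le_antisymm (by linarith) p1) with h | h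
      · exact Or.inl h
      · right
        have h1 : ip (w 0) z + ip (w 1) z = 28 := by
          exact_mod_cast (by linarith : (ip (w 0) z : ℝ) + ip (w 1) z = 28)
        rcases (G1 hz).2 h1 with h2 | h2
        · exact Or.inl h2
        · exact Or.inr (Or.inl h2)
    · rcases mul_eq_zero.1 (le_antisymm (by linarith) p2) with h | h
      · exact Or.inl h
      · right
        have h1 : ip (w 0) z + ip (w 1) z + ip (w 2) z = 40 := by
          exact_mod_cast (by linarith : (ip (w 0) z : ℝ) + ip (w 1) z + ip (w 2) z = 40)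
        exact (G2 hz).2 h1
    · rcases mul_eq_zero.1 (le_antisymm (by linarith) p3) with h | h
      · exact Or.inl h
      · right
        have h1 : ip (w 0) z + ip (w 1) z + ip (w 2) z + ip (w 3) z + ip v5 z = 64 := by
          exact_mod_cast (by linarith :
            (ip (w 0) z : ℝ) + ip (w 1) z + ip (w 2) z + ip (w 3) z + ip v5 z = 64)
        exact (G3 hz).2 h1
    · rcases mul_eq_zero.1 (le_antisymm (by linarith) p4) with h | h
      · exact Or.inl h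
      · rcases mul_eq_zero.1 (le_antisymm (by linarith) p7) with h' | h'
        · exact Or.inr (Or.inl h')
        · right; right
          have h1 : ip (rr 7) z + ip (rr 6) z + ip (rr 5) z = 24 := by
            exact_mod_cast (by linarith : (ip (rr 7) z : ℝ) + ip (rr 6) z + ip (rr 5) z = 24)
          have h2 : ip y0 z = 20 := by exact_mod_cast (by linarith : (ip y0 z : ℝ) = 20)
          exact G4 hz (by rw [sumW, h1, h2]; norm_num)
  -- some exceptional case leaves only vertices of `T1`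
  by_cases hcase : y ⬝ᵥ emb (w 0) 1 = 0 ∧ -(emb (αs 0) 0 ⬝ᵥ y) = 0 ∧
      -(emb (αs 1) 0 ⬝ᵥ y) = 0 ∧ -(emb (αs 2) 0 ⬝ᵥ y) = 0 ∧ -(emb (αs 3) 0 ⬝ᵥ y) = 0 ∧
      (-(emb (αs 4) 0 ⬝ᵥ y) = 0 ∨ -(emb (αs 7) 0 ⬝ᵥ y) = 0)
  · obtain ⟨hw, m0, m1, m2, m3, m47⟩ := hcase
    right
    rcases m47 with m4 | m7
    · -- `T2`
      refine ⟨T2, T2_li, fun i => ?_⟩
      have hz : ∀ z, A0 z → ip (rr 7) z = 8 → ip (rr 6) z = 8 → ip y0 z = 20 →
          emb z 1 ∈ SA ∧ y ⬝ᵥ emb z 1 = 0 := by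
        intro z hz a7 a6 a0
        refine ⟨⟨z, hz, rfl⟩, ?_⟩
        have hid := idA y z
        rw [m0, m1, m2, m3, m4, hw, a7, a6, a0] at hid
        norm_num at hid
        exact hid
      have key : ∀ j : Fin 8, j ≠ 7 → j ≠ 6 → emb (w j) 1 ∈ SA ∧ y ⬝ᵥ emb (w j) 1 = 0 := by
        intro j h7 h6
        refine hz (w j) (w_A0 j) ?_ ?_ ?_
        · revert j; unfold ip rr w; decide
        · revert j; unfold ip rr w; decide
        · revert j; unfold ip y0 w; decide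
      fin_cases i
      · exact key 0 (by decide) (by decide)
      · exact key 1 (by decide) (by decide)
      · exact key 2 (by decide) (by decide)
      · exact key 3 (by decide) (by decide)
      · exact key 4 (by decide) (by decide)
      · exact key 5 (by decide) (by decide)
    · -- `T1`
      refine ⟨T1, T1_li, fun i => ?_⟩
      have hz : ∀ z, A0 z → ip (rr 7) z = 8 → ip (rr 6) z = 8 → ip (rr 5) z = 8 →
          emb z 1 ∈ SA ∧ y ⬝ᵥ emb z 1 = 0 := by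
        intro z hz a7 a6 a5
        refine ⟨⟨z, hz, rfl⟩, ?_⟩
        have hid := idA y z
        rw [m0, m1, m2, m3, m7, hw, a7, a6, a5] at hid
        norm_num at hid
        exact hid
      have key : ∀ j : Fin 8, j ≠ 7 → j ≠ 6 → j ≠ 5 →
          emb (w j) 1 ∈ SA ∧ y ⬝ᵥ emb (w j) 1 = 0 := by
        intro j h7 h6 h5
        refine hz (w j) (w_A0 j) ?_ ?_ ?_
        · revert j; unfold ip rr w; decide
        · revert j; unfold ip rr w; decide
        · revert j; unfold ip rr w; decide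
      fin_cases i
      · exact key 0 (by decide) (by decide) (by decide)
      · exact key 1 (by decide) (by decide) (by decide)
      · exact key 2 (by decide) (by decide) (by decide)
      · exact key 3 (by decide) (by decide) (by decide)
      · exact key 4 (by decide) (by decide) (by decide)
      · exact hz v5 v5_A0 (by unfold ip rr v5; decide) (by unfold ip rr v5; decide)
          (by unfold ip rr v5; decide)
  · left
    refine ⟨6, T1, T1_li, ?_⟩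
    rintro _ ⟨⟨z, hz, rfl⟩, h0⟩
    obtain ⟨hw, k0, k1, k2, k3, k4⟩ := main z hz h0
    rcases k0 with k0 | k0
    · rcases k1 with k1 | k1
      · rcases k2 with k2 | k2
        · rcases k3 with k3 | k3
          · rcases k4 with k4 | k4 | k4
            · exact absurd ⟨hw, k0, k1, k2, k3, Or.inl k4⟩ hcase
            · exact absurd ⟨hw, k0, k1, k2, k3, Or.inr k4⟩ hcase
            · exact mem_T1_W k4
          · exact mem_T1_V k3
        · exact mem_T1_of k2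
      · exact mem_T1_of k1
    · exact mem_T1_of k0

end Pool.Agent.Helper1.SD.E8
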