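import Pool.Agent.Helper1.SD.E8Cover

set_option autoImplicit false

/-!
Faces of the dual of the cone over `2_41`.
-/

namespace Pool.Agent.Helper1.SD.E8

open Matrix

noncomputable def T3 : Fin 6 → (Fin 9 → ℝ) := ![emb (-rr 7) 2, emb (-rr 6) 2, emb (-rr 5) 2,
  emb (-rr 4) 2, emb (-rr 3) 2, emb (-y0) 5]

theorem sum_six' (f : Fin 6 → ℝ) : ∑ i, f i = f 0 + f 1 + f 2 + f 3 + f 4 + f 5 := by
  rw [Fin.sum_univ_castSucc, Fin.sum_univ_five]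
  rfl

theorem T3_li : LinearIndependent ℝ T3 := by
  rw [Fintype.linearIndependent_iff]
  intro g hg
  have e : ∀ j, ∑ i, g i * T3 i j = 0 := fun j => by
    have := congrFun hg j
    simpa [Finset.sum_apply] using this
  have e0 := e 0
  have e3 := e 3
  have e4 := e 4
  have e5 := e 5
  have e6 := e 6
  have e7 := e 7
  have e8 := e 8
  rw [sum_six'] at e0 e3 e4 e5 e6 e7 e8
  simp [T3, emb, rr, y0] at e0 e3 e4 e5 e6 e7 e8
  intro i
  fin_cases i <;> simp <;> linarith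

theorem idR (x : Fin 9 → ℝ) (r : Z8) : 4 * (x ⬝ᵥ emb (-r) 2) = 4 * (x ⬝ᵥ emb (-rr 7) 2) +
    (emb (αs 0) 0 ⬝ᵥ x) * (8 - ip (w 0) r) +
    (emb (αs 1) 0 ⬝ᵥ x) * (16 - (ip (w 0) r + ip (w 1) r)) +
    (emb (αs 2) 0 ⬝ᵥ x) * (24 - (ip (w 0) r + ip (w 1) r + ip (w 2) r)) +
    (emb (αs 3) 0 ⬝ᵥ x) * (20 - (ip (rr 7) r + ip (rr 6) r + ip (rr 5) r + ip (rr 4) r)) +
    (emb (αs 4) 0 ⬝ᵥ x) * (16 - (ip (rr 7) r + ip (rr 6) r + ip (rr 5) r)) +
    (emb (αs 5) 0 ⬝ᵥ x) * (12 - (ip (rr 7) r + ip (rr 6) r)) +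
    (emb (αs 6) 0 ⬝ᵥ x) * (8 - ip (rr 7) r) +
    (emb (αs 7) 0 ⬝ᵥ x) * (12 - ip y0 r) := by
  simp only [emb_dot, dot_emb, ip_eq]
  simp [αs, w, rr, y0]
  ring

theorem idY (x : Fin 9 → ℝ) (r : Z8) : 4 * (x ⬝ᵥ emb (-r) 5) = 4 * (x ⬝ᵥ emb (-y0) 5) +
    (emb (αs 0) 0 ⬝ᵥ x) * (20 - ip (w 0) r) +
    (emb (αs 1) 0 ⬝ᵥ x) * (40 - (ip (w 0) r + ip (w 1) r)) +
    (emb (αs 2) 0 ⬝ᵥ x) * (60 - (ip (w 0) r + ip (w 1) r + ip (w 2) r)) +
    (emb (αs 3) 0 ⬝ᵥ x) * (48 - (ip (rr 7) r + ip (rr 6) r + ip (rr 5) r + ip (rr 4) r)) +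
    (emb (αs 4) 0 ⬝ᵥ x) * (36 - (ip (rr 7) r + ip (rr 6) r + ip (rr 5) r)) +
    (emb (αs 5) 0 ⬝ᵥ x) * (24 - (ip (rr 7) r + ip (rr 6) r)) +
    (emb (αs 6) 0 ⬝ᵥ x) * (12 - ip (rr 7) r) +
    (emb (αs 7) 0 ⬝ᵥ x) * (32 - ip y0 r) := by
  simp only [emb_dot, dot_emb, ip_eq]
  simp [αs, w, rr, y0]
  ring

theorem idPQ (x : Fin 9 → ℝ) : 5 * (x ⬝ᵥ emb (-rr 7) 2) - 2 * (x ⬝ᵥ emb (-y0) 5) =
    emb (αs 7) 0 ⬝ᵥ x - emb (αs 3) 0 ⬝ᵥ x - 2 * (emb (αs 4) 0 ⬝ᵥ x) -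
      3 * (emb (αs 5) 0 ⬝ᵥ x) - 4 * (emb (αs 6) 0 ⬝ᵥ x) := by
  simp only [emb_dot, dot_emb]
  simp [αs, rr, y0]
  ring

theorem coverB (x : Fin 9 → ℝ) (hx : ∀ i, 0 ≤ emb (αs i) 0 ⬝ᵥ x)
    (hxB : ∀ b ∈ SB, 0 ≤ x ⬝ᵥ b) : Cover 4 {b | b ∈ SB ∧ x ⬝ᵥ b = 0} := by
  have hP : 0 ≤ x ⬝ᵥ emb (-rr 7) 2 := hxB _ (Or.inl ⟨_, (rr_R 7).neg, rfl⟩)
  have hQ : 0 ≤ x ⬝ᵥ emb (-y0) 5 := hxB _ (Or.inr ⟨_, y0_Y.neg, rfl⟩)
  have hPQ := idPQ x
  have n0 := hx 0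
  have n1 := hx 1
  have n2 := hx 2
  have n3 := hx 3
  have n4 := hx 4
  have n5 := hx 5
  have n6 := hx 6
  have n7 := hx 7
  -- consequences of a zero at a root
  have mainR : ∀ r, R r → x ⬝ᵥ emb (-r) 2 = 0 → x ⬝ᵥ emb (-rr 7) 2 = 0 ∧
      (emb (αs 3) 0 ⬝ᵥ x = 0 ∨ ∃ i, r = famR i) ∧
      (emb (αs 4) 0 ⬝ᵥ x = 0 ∨ ∃ i, r = famR i) ∧
      (emb (αs 5) 0 ⬝ᵥ x = 0 ∨ ∃ i, r = famR i) ∧
      (emb (αs 6) 0 ⬝ᵥ x = 0 ∨ ∃ i, r = famR i) := by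
    intro r hr h0
    have hid := idR x r
    rw [h0] at hid
    have i0 := ip_le_AR (w_A0 0) hr
    have i1 := ip_le_AR (w_A0 1) hr
    have i2 := ip_le_AR (w_A0 2) hr
    have i7 : ip (rr 7) r ≤ 8 := ip_le_RR' (rr_R 7) hr
    have i4 := (H4 hr).1
    have i3 := (H3 hr).1
    have i5 := (H2 hr).1
    have iy := ip_le_RY hr y0_Y
    rw [ip_comm] at iy
    have c0 : (0 : ℝ) ≤ 8 - ip (w 0) r := by exact_mod_cast (by linarith : (0 : ℤ) ≤ 8 - ip (w 0) r)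
    have c1 : (0 : ℝ) ≤ 16 - (ip (w 0) r + ip (w 1) r) := by
      exact_mod_cast (by linarith : (0 : ℤ) ≤ 16 - (ip (w 0) r + ip (w 1) r))
    have c2 : (0 : ℝ) ≤ 24 - (ip (w 0) r + ip (w 1) r + ip (w 2) r) := by
      exact_mod_cast (by linarith : (0 : ℤ) ≤ 24 - (ip (w 0) r + ip (w 1) r + ip (w 2) r))
    have c3 : (0 : ℝ) ≤ 20 - (ip (rr 7) r + ip (rr 6) r + ip (rr 5) r + ip (rr 4) r) := by
      exact_mod_cast (by linarith : (0 : ℤ) ≤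
        20 - (ip (rr 7) r + ip (rr 6) r + ip (rr 5) r + ip (rr 4) r))
    have c4 : (0 : ℝ) ≤ 16 - (ip (rr 7) r + ip (rr 6) r + ip (rr 5) r) := by
      exact_mod_cast (by linarith : (0 : ℤ) ≤ 16 - (ip (rr 7) r + ip (rr 6) r + ip (rr 5) r))
    have c5 : (0 : ℝ) ≤ 12 - (ip (rr 7) r + ip (rr 6) r) := by
      exact_mod_cast (by linarith : (0 : ℤ) ≤ 12 - (ip (rr 7) r + ip (rr 6) r))
    have c6 : (0 : ℝ) ≤ 8 - ip (rr 7) r := by
      exact_mod_cast (by linarith : (0 : ℤ) ≤ 8 - ip (rr 7) r)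
    have c7 : (0 : ℝ) ≤ 12 - ip y0 r := by
      exact_mod_cast (by linarith : (0 : ℤ) ≤ 12 - ip y0 r)
    have p0 := mul_nonneg n0 c0
    have p1 := mul_nonneg n1 c1
    have p2 := mul_nonneg n2 c2
    have p3 := mul_nonneg n3 c3
    have p4 := mul_nonneg n4 c4
    have p5 := mul_nonneg n5 c5
    have p6 := mul_nonneg n6 c6
    have p7 := mul_nonneg n7 c7
    refine ⟨by linarith, ?_, ?_, ?_, ?_⟩
    · rcases mul_eq_zero.1 (le_antisymm (by linarith) p3) with h | h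
      · exact Or.inl h
      · right
        have h1 : ip (rr 7) r + ip (rr 6) r + ip (rr 5) r + ip (rr 4) r = 20 := by
          exact_mod_cast (by linarith :
            (ip (rr 7) r : ℝ) + ip (rr 6) r + ip (rr 5) r + ip (rr 4) r = 20)
        exact (H4 hr).2 h1
    · rcases mul_eq_zero.1 (le_antisymm (by linarith) p4) with h | h
      · exact Or.inl h
      · right
        have h1 : ip (rr 7) r + ip (rr 6) r + ip (rr 5) r = 16 := by
          exact_mod_cast (by linarith : (ip (rr 7) r : ℝ) + ip (rr 6) r + ip (rr 5) r = 16)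
        rcases (H3 hr).2 h1 with h2 | h2 | h2
        · exact ⟨0, h2⟩
        · exact ⟨1, h2⟩
        · exact ⟨2, h2⟩
    · rcases mul_eq_zero.1 (le_antisymm (by linarith) p5) with h | h
      · exact Or.inl h
      · right
        have h1 : ip (rr 7) r + ip (rr 6) r = 12 := by
          exact_mod_cast (by linarith : (ip (rr 7) r : ℝ) + ip (rr 6) r = 12)
        rcases (H2 hr).2 h1 with h2 | h2
        · exact ⟨0, h2⟩
        · exact ⟨1, h2⟩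
    · rcases mul_eq_zero.1 (le_antisymm (by linarith) p6) with h | h
      · exact Or.inl h
      · right
        have h1 : ip (rr 7) r = 8 := by exact_mod_cast (by linarith : (ip (rr 7) r : ℝ) = 8)
        refine ⟨0, ?_⟩
        by_contra hne
        have := ip_le_RR (rr_R 7) hr (fun hc => hne hc.symm)
        omega
  -- consequences of a zero at a vector of norm 8
  have mainY : ∀ r, Y r → x ⬝ᵥ emb (-r) 5 = 0 → x ⬝ᵥ emb (-y0) 5 = 0 ∧
      (emb (αs 7) 0 ⬝ᵥ x = 0 ∨ r = y0) := by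
    intro r hr h0
    have hid := idY x r
    rw [h0] at hid
    have i0 := ip_le_AY (w_A0 0) hr
    have i1 := ip_le_AY (w_A0 1) hr
    have i2 := ip_le_AY (w_A0 2) hr
    have i7 := ip_le_RY (rr_R 7) hr
    have i6 := ip_le_RY (rr_R 6) hr
    have i5 := ip_le_RY (rr_R 5) hr
    have i4 := ip_le_RY (rr_R 4) hr
    have iy : ip y0 r ≤ 32 := ip_le_YY' y0_Y hr
    have c0 : (0 : ℝ) ≤ 20 - ip (w 0) r := by exact_mod_cast (by linarith : (0 : ℤ) ≤ 20 - ip (w 0) r)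
    have c1 : (0 : ℝ) ≤ 40 - (ip (w 0) r + ip (w 1) r) := by
      exact_mod_cast (by linarith : (0 : ℤ) ≤ 40 - (ip (w 0) r + ip (w 1) r))
    have c2 : (0 : ℝ) ≤ 60 - (ip (w 0) r + ip (w 1) r + ip (w 2) r) := by
      exact_mod_cast (by linarith : (0 : ℤ) ≤ 60 - (ip (w 0) r + ip (w 1) r + ip (w 2) r))
    have c3 : (0 : ℝ) ≤ 48 - (ip (rr 7) r + ip (rr 6) r + ip (rr 5) r + ip (rr 4) r) := by
      exact_mod_cast (by linarith : (0 : ℤ) ≤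
        48 - (ip (rr 7) r + ip (rr 6) r + ip (rr 5) r + ip (rr 4) r))
    have c4 : (0 : ℝ) ≤ 36 - (ip (rr 7) r + ip (rr 6) r + ip (rr 5) r) := by
      exact_mod_cast (by linarith : (0 : ℤ) ≤ 36 - (ip (rr 7) r + ip (rr 6) r + ip (rr 5) r))
    have c5 : (0 : ℝ) ≤ 24 - (ip (rr 7) r + ip (rr 6) r) := by
      exact_mod_cast (by linarith : (0 : ℤ) ≤ 24 - (ip (rr 7) r + ip (rr 6) r))
    have c6 : (0 : ℝ) ≤ 12 - ip (rr 7) r := by
      exact_mod_cast (by linarith : (0 : ℤ) ≤ 12 - ip (rr 7) r)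
    have c7 : (0 : ℝ) ≤ 32 - ip y0 r := by
      exact_mod_cast (by linarith : (0 : ℤ) ≤ 32 - ip y0 r)
    have p0 := mul_nonneg n0 c0
    have p1 := mul_nonneg n1 c1
    have p2 := mul_nonneg n2 c2
    have p3 := mul_nonneg n3 c3
    have p4 := mul_nonneg n4 c4
    have p5 := mul_nonneg n5 c5
    have p6 := mul_nonneg n6 c6
    have p7 := mul_nonneg n7 c7
    refine ⟨by linarith, ?_⟩
    rcases mul_eq_zero.1 (le_antisymm (by linarith) p7) with h | h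
    · exact Or.inl h
    · right
      have h1 : ip y0 r = 32 := by exact_mod_cast (by linarith : (ip y0 r : ℝ) = 32)
      by_contra hne
      have := ip_le_YY y0_Y hr (fun hc => hne hc.symm)
      omega
  by_cases hcase : x ⬝ᵥ emb (-rr 7) 2 = 0 ∧ emb (αs 3) 0 ⬝ᵥ x = 0 ∧ emb (αs 4) 0 ⬝ᵥ x = 0 ∧
      emb (αs 5) 0 ⬝ᵥ x = 0 ∧ emb (αs 6) 0 ⬝ᵥ x = 0 ∧ emb (αs 7) 0 ⬝ᵥ x = 0
  · obtain ⟨hP0, m3, m4, m5, m6, m7⟩ := hcase
    right
    have hQ0 : x ⬝ᵥ emb (-y0) 5 = 0 := by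
      rw [hP0, m3, m4, m5, m6, m7] at hPQ
      linarith
    refine ⟨T3, T3_li, fun i => ?_⟩
    have hz : ∀ r, R r → ip (w 0) r = 8 → ip (w 1) r = 8 → ip (w 2) r = 8 →
        emb (-r) 2 ∈ SB ∧ x ⬝ᵥ emb (-r) 2 = 0 := by
      intro r hr a0 a1 a2
      refine ⟨Or.inl ⟨_, hr.neg, rfl⟩, ?_⟩
      have hid := idR x r
      rw [m3, m4, m5, m6, m7, hP0, a0, a1, a2] at hid
      norm_num at hid
      exact hid
    have key : ∀ j : Fin 8, j ≠ 0 → j ≠ 1 → j ≠ 2 →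
        emb (-rr j) 2 ∈ SB ∧ x ⬝ᵥ emb (-rr j) 2 = 0 := by
      intro j h0 h1 h2
      refine hz (rr j) (rr_R j) ?_ ?_ ?_
      · revert j; unfold ip rr w; decide
      · revert j; unfold ip rr w; decide
      · revert j; unfold ip rr w; decide
    fin_cases i
    · exact key 7 (by decide) (by decide) (by decide)
    · exact key 6 (by decide) (by decide) (by decide)
    · exact key 5 (by decide) (by decide) (by decide)
    · exact key 4 (by decide) (by decide) (by decide)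
    · exact key 3 (by decide) (by decide) (by decide)
    · exact ⟨Or.inr ⟨_, y0_Y.neg, rfl⟩, hQ0⟩
  · left
    refine ⟨6, T3, T3_li, ?_⟩
    rintro _ ⟨⟨z, hz, rfl⟩ | ⟨z, hz, rfl⟩, h0⟩
    · have h0' : x ⬝ᵥ emb (-(-z)) 2 = 0 := by rw [neg_neg]; exact h0
      obtain ⟨hP0, k3, k4, k5, k6⟩ := mainR (-z) hz.neg h0'
      have hfam : ∃ i, -z = famR i := by
        rcases k3 with k3 | k3
        · rcases k4 with k4 | k4
          · rcases k5 with k5 | k5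
            · rcases k6 with k6 | k6
              · exfalso
                refine hcase ⟨hP0, k3, k4, k5, k6, ?_⟩
                rw [hP0, k3, k4, k5, k6] at hPQ
                linarith
              · exact k6
            · exact k5
          · exact k4
        · exact k3
      obtain ⟨i, hi⟩ := hfam
      have hz' : z = -famR i := by rw [← hi, neg_neg]
      rw [hz']
      fin_cases i
      · exact ⟨0, rfl⟩
      · exact ⟨1, rfl⟩
      · exact ⟨2, rfl⟩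
      · exact ⟨3, rfl⟩
    · have h0' : x ⬝ᵥ emb (-(-z)) 5 = 0 := by rw [neg_neg]; exact h0
      obtain ⟨hQ0, k7⟩ := mainY (-z) hz.neg h0'
      have hy : -z = y0 := by
        rcases k7 with k7 | k7
        · exfalso
          rw [hQ0, k7] at hPQ
          refine hcase ⟨?_, ?_, ?_, ?_, ?_, k7⟩ <;> linarith
        · exact k7
      have hz' : z = -y0 := by rw [← hy, neg_neg]
      rw [hz']
      exact ⟨5, rfl⟩

end Pool.Agent.Helper1.SD.E8
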