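import Pool.Agent.Helper1.SD.E8Good

set_option autoImplicit false

/-!
Faces of the two `E₈` cones: the covering conditions for `k = 4`.
-/

namespace Pool.Agent.Helper1.SD.E8

open Matrix

/-! ### explicit sums -/

theorem rr_ne {i j : Fin 8} (h : i ≠ j) : rr i ≠ rr j := by
  intro hc
  have := congrFun hc i
  simp [rr, h] at this

theorem w_ne {i j : Fin 8} (h : i ≠ j) : w i ≠ w j := by
  intro hc
  have := congrFun hc i
  simp [w, h] at this

theorem inj2 {α : Type*} {a b : α} (h : a ≠ b) : Function.Injective ![a, b] := by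
  intro i j hij
  fin_cases i <;> fin_cases j <;> simp_all

theorem inj3 {α : Type*} {a b c : α} (h1 : a ≠ b) (h2 : a ≠ c) (h3 : b ≠ c) :
    Function.Injective ![a, b, c] := by
  intro i j hij
  fin_cases i <;> fin_cases j <;> simp_all

theorem G1 {z : Z8} (hz : A0 z) : ip (w 0) z + ip (w 1) z ≤ 28 ∧
    (ip (w 0) z + ip (w 1) z = 28 → z = w 0 ∨ z = w 1) := by
  have h := sumA ![w 0, w 1] (by intro i; fin_cases i <;> exact w_A0 _)
    (inj2 (w_ne (by decide))) hz
  rw [Fin.sum_univ_two] at h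
  simp only [cons_val_zero, cons_val_one, cons_val_fin_one] at h
  refine ⟨by have := h.1; push_cast at this; linarith, fun he => ?_⟩
  obtain ⟨i, hi⟩ := h.2 (by push_cast; linarith)
  fin_cases i
  · exact Or.inl hi
  · exact Or.inr hi

theorem G2 {z : Z8} (hz : A0 z) : ip (w 0) z + ip (w 1) z + ip (w 2) z ≤ 40 ∧
    (ip (w 0) z + ip (w 1) z + ip (w 2) z = 40 → z = w 0 ∨ z = w 1 ∨ z = w 2) := by
  have h := sumA ![w 0, w 1, w 2] (by intro i; fin_cases i <;> exact w_A0 _)
    (inj3 (w_ne (by decide)) (w_ne (by decide)) (w_ne (by decide))) hz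
  rw [Fin.sum_univ_three] at h
  simp only [cons_val_zero, cons_val_one, cons_val_two, tail_cons, head_cons]
    at h
  refine ⟨by have := h.1; push_cast at this; linarith, fun he => ?_⟩
  obtain ⟨i, hi⟩ := h.2 (by push_cast; linarith)
  fin_cases i
  · exact Or.inl hi
  · exact Or.inr (Or.inl hi)
  · exact Or.inr (Or.inr hi)

/-- the two families of five mutually adjacent vertices -/
def famV : Fin 5 → Z8 := ![w 0, w 1, w 2, w 3, v5]
def famW : Fin 5 → Z8 := ![w 0, w 1, w 2, w 3, w 4]
def famR : Fin 4 → Z8 := ![rr 7, rr 6, rr 5, rr 4]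

theorem famV_inj : Function.Injective famV := by
  unfold famV w v5
  decide

theorem famW_inj : Function.Injective famW := by
  unfold famW w
  decide

theorem famR_inj : Function.Injective famR := by
  unfold famR rr
  decide

theorem G3 {z : Z8} (hz : A0 z) :
    ip (w 0) z + ip (w 1) z + ip (w 2) z + ip (w 3) z + ip v5 z ≤ 64 ∧
    (ip (w 0) z + ip (w 1) z + ip (w 2) z + ip (w 3) z + ip v5 z = 64 → ∃ i, z = famV i) := by
  have h := sumA famV (by
    intro i; fin_cases i
    · exact w_A0 _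
    · exact w_A0 _
    · exact w_A0 _
    · exact w_A0 _
    · exact v5_A0) famV_inj hz
  rw [Fin.sum_univ_five] at h
  change ip (w 0) z + ip (w 1) z + ip (w 2) z + ip (w 3) z + ip v5 z ≤ _ ∧
    (_ < ip (w 0) z + ip (w 1) z + ip (w 2) z + ip (w 3) z + ip v5 z → _) at h
  exact ⟨by have := h.1; push_cast at this; linarith, fun he => h.2 (by push_cast; linarith)⟩

theorem G4 {z : Z8} (hz : A0 z) :
    ip (w 0) z + ip (w 1) z + ip (w 2) z + ip (w 3) z + ip (w 4) z = 64 → ∃ i, z = famW i := by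
  have h := sumA famW (by
    intro i; fin_cases i
    · exact w_A0 _
    · exact w_A0 _
    · exact w_A0 _
    · exact w_A0 _
    · exact w_A0 _) famW_inj hz
  rw [Fin.sum_univ_five] at h
  change _ ∧ (_ < ip (w 0) z + ip (w 1) z + ip (w 2) z + ip (w 3) z + ip (w 4) z → _) at h
  exact fun he => h.2 (by push_cast; linarith)

theorem H2 {z : Z8} (hz : R z) : ip (rr 7) z + ip (rr 6) z ≤ 12 ∧
    (ip (rr 7) z + ip (rr 6) z = 12 → z = rr 7 ∨ z = rr 6) := by
  have h := sumR ![rr 7, rr 6] (by intro i; fin_cases i <;> exact rr_R _)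
    (inj2 (rr_ne (by decide))) hz
  rw [Fin.sum_univ_two] at h
  simp only [cons_val_zero, cons_val_one, cons_val_fin_one] at h
  refine ⟨by have := h.1; push_cast at this; linarith, fun he => ?_⟩
  obtain ⟨i, hi⟩ := h.2 (by push_cast; linarith)
  fin_cases i
  · exact Or.inl hi
  · exact Or.inr hi

theorem H3 {z : Z8} (hz : R z) : ip (rr 7) z + ip (rr 6) z + ip (rr 5) z ≤ 16 ∧
    (ip (rr 7) z + ip (rr 6) z + ip (rr 5) z = 16 → z = rr 7 ∨ z = rr 6 ∨ z = rr 5) := by
  have h := sumR ![rr 7, rr 6, rr 5] (by intro i; fin_cases i <;> exact rr_R _)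
    (inj3 (rr_ne (by decide)) (rr_ne (by decide)) (rr_ne (by decide))) hz
  rw [Fin.sum_univ_three] at h
  simp only [cons_val_zero, cons_val_one, cons_val_two, tail_cons, head_cons]
    at h
  refine ⟨by have := h.1; push_cast at this; linarith, fun he => ?_⟩
  obtain ⟨i, hi⟩ := h.2 (by push_cast; linarith)
  fin_cases i
  · exact Or.inl hi
  · exact Or.inr (Or.inl hi)
  · exact Or.inr (Or.inr hi)

theorem H4 {z : Z8} (hz : R z) : ip (rr 7) z + ip (rr 6) z + ip (rr 5) z + ip (rr 4) z ≤ 20 ∧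
    (ip (rr 7) z + ip (rr 6) z + ip (rr 5) z + ip (rr 4) z = 20 → ∃ i, z = famR i) := by
  have h := sumR famR (by intro i; fin_cases i <;> exact rr_R _) famR_inj hz
  rw [Fin.sum_univ_four] at h
  change ip (rr 7) z + ip (rr 6) z + ip (rr 5) z + ip (rr 4) z ≤ _ ∧
    (_ < ip (rr 7) z + ip (rr 6) z + ip (rr 5) z + ip (rr 4) z → _) at h
  exact ⟨by have := h.1; push_cast at this; linarith, fun he => h.2 (by push_cast; linarith)⟩

/-! ### linear independence of the explicit families -/

end Pool.Agent.Helper1.SD.E8
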