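import Pool.Agent.Helper1.SD.E8CovA
import Pool.Agent.Helper1.SD.E8CovB
import Pool.Agent.Helper79.SD5
import Pool.Agent.Helper53.SDGood

set_option autoImplicit false

/-!
A good self-dual cone in `ℝ⁹` for `k = 4`.
-/

namespace Pool.Agent.Helper1.SD.E8

open Matrix

theorem sys_good : sys.Good 4 where
  nonneg := nonneg_AB
  key := key_ineq
  coverA := coverA
  coverB := coverB

/-- the vertices `w i` and the apex, dual basis to `Q` -/
noncomputable def Pv : Fin 9 → (Fin 9 → ℝ) := ![emb (w 0) 1, emb (w 1) 1, emb (w 2) 1,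
  emb (w 3) 1, emb (w 4) 1, emb (w 5) 1, emb (w 6) 1, emb (w 7) 1,
  emb (fun _ => -4) (-3)]
/-- the adjacent facets and the facet -/
noncomputable def Qv : Fin 9 → (Fin 9 → ℝ) := ![emb (-rr 0) 2, emb (-rr 1) 2, emb (-rr 2) 2,
  emb (-rr 3) 2, emb (-rr 4) 2, emb (-rr 5) 2, emb (-rr 6) 2, emb (-rr 7) 2, emb (-y0) 5]

theorem QP (i j : Fin 9) : Qv i ⬝ᵥ Pv j = if i = j then 1 else 0 := by
  have h : ∀ (a b : Z8) (s t : ℝ), emb a s ⬝ᵥ emb b t = (ip a b : ℝ) / 4 + s * t := emb_dot_emb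
  have hrw : ∀ i j : Fin 8, ip (-rr i) (w j) = if i = j then -4 else -8 := by
    unfold ip rr w; decide
  have hyw : ∀ j : Fin 8, ip (-y0) (w j) = -20 := by
    unfold ip y0 w; decide
  have hru : ∀ i : Fin 8, ip (-rr i) (fun _ => -4) = 24 := by
    unfold ip rr; decide
  have hyu : ip (-y0) (fun _ => -4) = 64 := by
    unfold ip y0; decide
  fin_cases i <;> fin_cases j <;>
    simp [Qv, Pv, h, hrw, hyw, hru, hyu] <;> norm_num

theorem Pv_mem (i : Fin 8) : Pv i.castSucc ∈ SA := by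
  fin_cases i
  · exact ⟨w 0, w_A0 0, rfl⟩
  · exact ⟨w 1, w_A0 1, rfl⟩
  · exact ⟨w 2, w_A0 2, rfl⟩
  · exact ⟨w 3, w_A0 3, rfl⟩
  · exact ⟨w 4, w_A0 4, rfl⟩
  · exact ⟨w 5, w_A0 5, rfl⟩
  · exact ⟨w 6, w_A0 6, rfl⟩
  · exact ⟨w 7, w_A0 7, rfl⟩

theorem Qv_mem (i : Fin 9) : Qv i ∈ SB := by
  fin_cases i
  · exact Or.inl ⟨_, (rr_R 0).neg, rfl⟩
  · exact Or.inl ⟨_, (rr_R 1).neg, rfl⟩
  · exact Or.inl ⟨_, (rr_R 2).neg, rfl⟩
  · exact Or.inl ⟨_, (rr_R 3).neg, rfl⟩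
  · exact Or.inl ⟨_, (rr_R 4).neg, rfl⟩
  · exact Or.inl ⟨_, (rr_R 5).neg, rfl⟩
  · exact Or.inl ⟨_, (rr_R 6).neg, rfl⟩
  · exact Or.inl ⟨_, (rr_R 7).neg, rfl⟩
  · exact Or.inr ⟨_, y0_Y.neg, rfl⟩

theorem hb : ∀ b ∈ SB, b = Qv (Fin.last 8) ∨ b ⬝ᵥ Pv (Fin.last 8) ≤ 0 := by
  have e1 : Pv (Fin.last 8) = emb (fun _ => -4) (-3) := rfl
  have e2 : Qv (Fin.last 8) = emb (-y0) 5 := rfl
  have h4 : ∀ z : Z8, ip z (fun _ => -4) = 2 * ip y0 (-z) := by
    intro z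
    simp only [ip_eq, y0, Pi.neg_apply]
    ring
  rintro _ (⟨z, hz, rfl⟩ | ⟨z, hz, rfl⟩)
  · right
    rw [e1, emb_dot_emb, h4]
    have h1 := ip_le_RY hz.neg y0_Y
    rw [ip_comm] at h1
    have h2 : (ip y0 (-z) : ℝ) ≤ 12 := by exact_mod_cast h1
    push_cast
    linarith
  · by_cases h : -z = y0
    · left
      rw [e2, ← h, neg_neg]
    · right
      rw [e1, emb_dot_emb, h4]
      have h1 := ip_le_YY y0_Y hz.neg (fun hc => h hc.symm)
      have h2 : (ip y0 (-z) : ℝ) ≤ 28 := by exact_mod_cast h1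
      push_cast
      linarith

end Pool.Agent.Helper1.SD.E8

namespace Pool.Agent.Helper1.SD

open Matrix E8

theorem goodCone_E8 : ∃ K : Set (Fin 9 → ℝ), GoodCone 4 K := by
  have hd := sys_good.dualAB
  have hks := sys_good.ks
  refine exists_goodCone (k := 4) (d := 8) SA_finite SB_finite hd.1 hd.2 hks.1 hks.2 Pv Qv QP
    (fun i => subset_coneOf _ (Pv_mem i)) Qv_mem hb ?_ ?_
  · -- for each `i` a vertex on the adjacent facet above the base facet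
    have key : ∀ (i : Fin 8) (v : Z8), A0 v → ip (-rr i) v = -8 → ip (-y0) v = -16 →
        Qv i.castSucc = emb (-rr i) 2 →
        ∃ x ∈ SA, Qv i.castSucc ⬝ᵥ x = 0 ∧ 0 < Qv (Fin.last 8) ⬝ᵥ x := by
      intro i v hv h1 h2 h3
      refine ⟨emb v 1, ⟨v, hv, rfl⟩, ?_, ?_⟩
      · rw [h3, emb_dot_emb, h1]; norm_num
      · have e2 : Qv (Fin.last 8) = emb (-y0) 5 := rfl
        rw [e2, emb_dot_emb, h2]; norm_num
    intro i
    fin_cases i
    · exact key 0 v5' v5'_A0 (by unfold ip rr v5'; decide) (by unfold ip y0 v5'; decide) rfl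
    · exact key 1 v5' v5'_A0 (by unfold ip rr v5'; decide) (by unfold ip y0 v5'; decide) rfl
    · exact key 2 v5' v5'_A0 (by unfold ip rr v5'; decide) (by unfold ip y0 v5'; decide) rfl
    · exact key 3 v5' v5'_A0 (by unfold ip rr v5'; decide) (by unfold ip y0 v5'; decide) rfl
    · exact key 4 v5 v5_A0 (by unfold ip rr v5; decide) (by unfold ip y0 v5; decide) rfl
    · exact key 5 v5 v5_A0 (by unfold ip rr v5; decide) (by unfold ip y0 v5; decide) rfl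
    · exact key 6 v5 v5_A0 (by unfold ip rr v5; decide) (by unfold ip y0 v5; decide) rfl
    · exact key 7 v5 v5_A0 (by unfold ip rr v5; decide) (by unfold ip y0 v5; decide) rfl
  · -- witness
    have hr : R (![0, 0, -2, -2, 0, 0, 0, 0] : Z8) := by unfold R L ip; decide
    refine ⟨0, emb v5 1, ⟨v5, v5_A0, rfl⟩, emb (![0, 0, -2, -2, 0, 0, 0, 0] : Z8) 2,
      Or.inl ⟨_, hr, rfl⟩, ?_, ?_, ?_, ?_⟩
    · have e1 : Pv (Fin.last 8) = emb (fun _ => -4) (-3) := rfl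
      have h1 : ip (![0, 0, -2, -2, 0, 0, 0, 0] : Z8) (fun _ => -4) = 16 := by unfold ip; decide
      rw [e1, emb_dot_emb, h1]; norm_num
    · have e1 : Qv (0 : Fin 8).castSucc = emb (-rr 0) 2 := rfl
      have h1 : ip (-rr 0) v5 = -4 := by unfold ip rr v5; decide
      rw [e1, emb_dot_emb, h1]; norm_num
    · have e1 : Pv (0 : Fin 8).castSucc = emb (w 0) 1 := rfl
      have h1 : ip (![0, 0, -2, -2, 0, 0, 0, 0] : Z8) (w 0) = -4 := by unfold ip w; decide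
      rw [e1, emb_dot_emb, h1]; norm_num
    · have h1 : ip v5 (![0, 0, -2, -2, 0, 0, 0, 0] : Z8) = -8 := by unfold ip v5; decide
      rw [emb_dot_emb, h1]; norm_num

end Pool.Agent.Helper1.SD
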