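import Pool.Agent.Helper1.SD.E8Sys

set_option autoImplicit false

/-!
The reflection system of type `E₈` is good for `k = 4`.
-/

namespace Pool.Agent.Helper1.SD.E8

open Matrix

/-! ### sums over cliques -/

theorem sumA {m : ℕ} (s : Fin m → Z8) (hs : ∀ i, A0 (s i)) (hinj : Function.Injective s)
    {z : Z8} (hz : A0 z) : ∑ i, ip (s i) z ≤ 12 * m + 4 ∧
    (12 * (m : ℤ) < ∑ i, ip (s i) z → ∃ i, z = s i) := by
  constructor
  · by_cases h : ∃ i, z = s i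
    · obtain ⟨i, rfl⟩ := h
      rw [← Finset.add_sum_erase _ _ (Finset.mem_univ i)]
      have h1 : ip (s i) (s i) = 16 := (hs i).2
      have h2 : ∑ j ∈ Finset.univ.erase i, ip (s j) (s i) ≤
          ∑ j ∈ Finset.univ.erase i, (12 : ℤ) := by
        refine Finset.sum_le_sum fun j hj => ip_le_AA (hs j) (hs i) ?_
        exact fun hc => Finset.ne_of_mem_erase hj (hinj hc)
      rw [Finset.sum_const, Finset.card_erase_of_mem (Finset.mem_univ i), Finset.card_univ,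
        Fintype.card_fin] at h2
      have h3 : 1 ≤ m := by have := i.2; omega
      rw [nsmul_eq_mul, Nat.cast_sub h3] at h2
      push_cast at h2
      linarith
    · push Not at h
      have h2 : ∑ i, ip (s i) z ≤ ∑ i : Fin m, (12 : ℤ) :=
        Finset.sum_le_sum fun j _ => ip_le_AA (hs j) hz (fun hc => h j hc.symm)
      simp at h2
      linarith
  · intro hlt
    by_contra h
    push Not at h
    have h2 : ∑ i, ip (s i) z ≤ ∑ i : Fin m, (12 : ℤ) :=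
      Finset.sum_le_sum fun j _ => ip_le_AA (hs j) hz (fun hc => h j hc.symm)
    simp at h2
    linarith

theorem sumR {m : ℕ} (s : Fin m → Z8) (hs : ∀ i, R (s i)) (hinj : Function.Injective s)
    {z : Z8} (hz : R z) : ∑ i, ip (s i) z ≤ 4 * m + 4 ∧
    (4 * (m : ℤ) < ∑ i, ip (s i) z → ∃ i, z = s i) := by
  constructor
  · by_cases h : ∃ i, z = s i
    · obtain ⟨i, rfl⟩ := h
      rw [← Finset.add_sum_erase _ _ (Finset.mem_univ i)]
      have h1 : ip (s i) (s i) = 8 := (hs i).2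
      have h2 : ∑ j ∈ Finset.univ.erase i, ip (s j) (s i) ≤
          ∑ j ∈ Finset.univ.erase i, (4 : ℤ) := by
        refine Finset.sum_le_sum fun j hj => ip_le_RR (hs j) (hs i) ?_
        exact fun hc => Finset.ne_of_mem_erase hj (hinj hc)
      rw [Finset.sum_const, Finset.card_erase_of_mem (Finset.mem_univ i), Finset.card_univ,
        Fintype.card_fin] at h2
      have h3 : 1 ≤ m := by have := i.2; omega
      rw [nsmul_eq_mul, Nat.cast_sub h3] at h2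
      push_cast at h2
      linarith
    · push Not at h
      have h2 : ∑ i, ip (s i) z ≤ ∑ i : Fin m, (4 : ℤ) :=
        Finset.sum_le_sum fun j _ => ip_le_RR (hs j) hz (fun hc => h j hc.symm)
      simp at h2
      linarith
  · intro hlt
    by_contra h
    push Not at h
    have h2 : ∑ i, ip (s i) z ≤ ∑ i : Fin m, (4 : ℤ) :=
      Finset.sum_le_sum fun j _ => ip_le_RR (hs j) hz (fun hc => h j hc.symm)
    simp at h2
    linarith

/-! ### nonnegativity -/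

theorem nonneg_AB : ∀ a ∈ SA, ∀ b ∈ SB, 0 ≤ a ⬝ᵥ b := by
  rintro _ ⟨a, ha, rfl⟩ _ (⟨b, hb, rfl⟩ | ⟨b, hb, rfl⟩)
  · rw [emb_dot_emb]
    have h1 := ip_le_AR ha hb.neg
    rw [ip_neg_right] at h1
    have h2 : (-8 : ℝ) ≤ ip a b := by exact_mod_cast (by linarith : (-8 : ℤ) ≤ ip a b)
    linarith
  · rw [emb_dot_emb]
    have h1 := ip_le_AY ha hb.neg
    rw [ip_neg_right] at h1
    have h2 : (-20 : ℝ) ≤ ip a b := by exact_mod_cast (by linarith : (-20 : ℤ) ≤ ip a b)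
    linarith

/-! ### the key inequality -/

theorem key_ineq (x y : Fin 9 → ℝ) (hx : ∀ i, 0 ≤ emb (αs i) 0 ⬝ᵥ x)
    (hy : ∀ i, emb (αs i) 0 ⬝ᵥ y ≤ 0) (hxB : ∀ b ∈ SB, 0 ≤ x ⬝ᵥ b)
    (hyA : ∀ a ∈ SA, 0 ≤ y ⬝ᵥ a) : 0 ≤ x ⬝ᵥ y := by
  have x0 := hx 0
  have x1 := hx 1
  have x2 := hx 2
  have x3 := hx 3
  have x4 := hx 4
  have x5 := hx 5
  have x6 := hx 6
  have x7 := hx 7
  have y0' := hy 0
  have y1 := hy 1
  have y2 := hy 2
  have y3 := hy 3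
  have y4 := hy 4
  have y5 := hy 5
  have y6 := hy 6
  have y7 := hy 7
  have hP := hxB (emb (-rr 7) 2) (Or.inl ⟨_, (rr_R 7).neg, rfl⟩)
  have hQ := hxB (emb (-y0) 5) (Or.inr ⟨_, y0_Y.neg, rfl⟩)
  have hW := hyA (emb (w 0) 1) ⟨_, w_A0 0, rfl⟩
  rw [emb_dot] at x0 x1 x2 x3 x4 x5 x6 x7 y0' y1 y2 y3 y4 y5 y6 y7
  rw [dot_emb] at hP hQ hW
  simp [αs, rr, y0, w] at x0 x1 x2 x3 x4 x5 x6 x7 y0' y1 y2 y3 y4 y5 y6 y7 hP hQ hW
  rw [dot_nine]
  have hs : 0 ≤ x 8 := by linarith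
  -- the gaps L_i s - Ω_i . x
  have g0 : 0 ≤ 4 * x 8 - (3 * x 0 + x 1 + x 2 + x 3 + x 4 + x 5 + x 6 + x 7) / 2 := by linarith
  have g1 : 0 ≤ 7 * x 8 - (2 * x 0 + 2 * x 1 + x 2 + x 3 + x 4 + x 5 + x 6 + x 7) := by linarith
  have g2 : 0 ≤ 10 * x 8 - (5 * x 0 + 5 * x 1 + 5 * x 2 + 3 * x 3 + 3 * x 4 + 3 * x 5 +
      3 * x 6 + 3 * x 7) / 2 := by linarith
  have g3 : 0 ≤ 8 * x 8 - (2 * x 0 + 2 * x 1 + 2 * x 2 + 2 * x 3 + x 4 + x 5 + x 6 + x 7) := by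
    linarith
  have g4 : 0 ≤ 6 * x 8 - (3 * x 0 + 3 * x 1 + 3 * x 2 + 3 * x 3 + 3 * x 4 + x 5 + x 6 +
      x 7) / 2 := by linarith
  have g5 : 0 ≤ 4 * x 8 - (x 0 + x 1 + x 2 + x 3 + x 4 + x 5) := by linarith
  have g6 : 0 ≤ 2 * x 8 - (x 0 + x 1 + x 2 + x 3 + x 4 + x 5 + x 6 - x 7) / 2 := by linarith
  have g7 : 0 ≤ 5 * x 8 - (x 0 + x 1 + x 2 + x 3 + x 4 + x 5 + x 6 + x 7) := by linarith
  have m0 := mul_nonneg (sub_nonneg.2 y0') g0
  have m1 := mul_nonneg (sub_nonneg.2 y1) g1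
  have m2 := mul_nonneg (sub_nonneg.2 y2) g2
  have m3 := mul_nonneg (sub_nonneg.2 y3) g3
  have m4 := mul_nonneg (sub_nonneg.2 y4) g4
  have m5 := mul_nonneg (sub_nonneg.2 y5) g5
  have m6 := mul_nonneg (sub_nonneg.2 y6) g6
  have m7 := mul_nonneg (sub_nonneg.2 y7) g7
  have mW := mul_nonneg hW hs
  nlinarith [m0, m1, m2, m3, m4, m5, m6, m7, mW]

end Pool.Agent.Helper1.SD.E8
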