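import Pool.Agent.Helper1.SD.Cone

set_option autoImplicit false

/-!
The `E₈` lattice in doubled integer coordinates.
-/

namespace Pool.Agent.Helper1.SD.E8

/-- integer vectors of length eight (twice the real coordinates) -/
abbrev Z8 : Type := Fin 8 → ℤ

/-- the lattice `E₈` (in the coordinates where the half-integral vectors have odd sum),
coordinates doubled -/
def L (z : Z8) : Prop := (∀ i, (2 : ℤ) ∣ z i - z 0) ∧ (4 : ℤ) ∣ (∑ i, z i) - 2 * z 0

def ip (z w : Z8) : ℤ := ∑ i, z i * w i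

theorem ip_comm (z w : Z8) : ip z w = ip w z := by
  unfold ip; exact Finset.sum_congr rfl fun i _ => mul_comm _ _

theorem ip_add_left (z z' w : Z8) : ip (z + z') w = ip z w + ip z' w := by
  unfold ip; simp only [Pi.add_apply, add_mul, Finset.sum_add_distrib]

theorem ip_neg_left (z w : Z8) : ip (-z) w = -ip z w := by
  unfold ip; simp only [Pi.neg_apply, neg_mul, Finset.sum_neg_distrib]

theorem ip_neg_right (z w : Z8) : ip z (-w) = -ip z w := by
  rw [ip_comm, ip_neg_left, ip_comm]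

theorem L.neg {z : Z8} (h : L z) : L (-z) := by
  obtain ⟨h1, h2⟩ := h
  refine ⟨fun i => ?_, ?_⟩
  · have := (h1 i)
    simp only [Pi.neg_apply]
    have h3 : -z i - -z 0 = -(z i - z 0) := by ring
    rw [h3]; exact (dvd_neg).2 this
  · simp only [Pi.neg_apply, Finset.sum_neg_distrib]
    have h3 : -∑ i, z i - 2 * -z 0 = -((∑ i, z i) - 2 * z 0) := by ring
    rw [h3]; exact (dvd_neg).2 h2

theorem L.add {z w : Z8} (h : L z) (h' : L w) : L (z + w) := by
  obtain ⟨h1, h2⟩ := h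
  obtain ⟨h3, h4⟩ := h'
  refine ⟨fun i => ?_, ?_⟩
  · simp only [Pi.add_apply]
    have h5 : z i + w i - (z 0 + w 0) = (z i - z 0) + (w i - w 0) := by ring
    rw [h5]; exact dvd_add (h1 i) (h3 i)
  · simp only [Pi.add_apply, Finset.sum_add_distrib]
    have h5 : ∑ i, z i + ∑ i, w i - 2 * (z 0 + w 0) =
      ((∑ i, z i) - 2 * z 0) + ((∑ i, w i) - 2 * w 0) := by ring
    rw [h5]; exact dvd_add h2 h4

theorem L.zsmul {z : Z8} (h : L z) (k : ℤ) : L (k • z) := by
  obtain ⟨h1, h2⟩ := h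
  refine ⟨fun i => ?_, ?_⟩
  · simp only [Pi.smul_apply, smul_eq_mul]
    have h5 : k * z i - k * z 0 = k * (z i - z 0) := by ring
    rw [h5]; exact Dvd.dvd.mul_left (h1 i) k
  · simp only [Pi.smul_apply, smul_eq_mul, ← Finset.mul_sum]
    have h5 : k * ∑ i, z i - 2 * (k * z 0) = k * ((∑ i, z i) - 2 * z 0) := by ring
    rw [h5]; exact Dvd.dvd.mul_left h2 k

theorem L.dvd_ip {z w : Z8} (h : L z) (h' : L w) : (4 : ℤ) ∣ ip z w := by
  obtain ⟨h1, m, hm⟩ := h
  obtain ⟨h3, m', hm'⟩ := h'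
  choose s hs using h1
  choose t ht using h3
  have hz : ∀ i, z i = z 0 + 2 * s i := fun i => by have := hs i; linarith
  have hw : ∀ i, w i = w 0 + 2 * t i := fun i => by have := ht i; linarith
  have hS : ∑ i, z i = 8 * z 0 + 2 * ∑ i, s i := by
    rw [Finset.sum_congr rfl fun i _ => hz i, Finset.sum_add_distrib, Finset.mul_sum]
    simp
  have hT : ∑ i, w i = 8 * w 0 + 2 * ∑ i, t i := by
    rw [Finset.sum_congr rfl fun i _ => hw i, Finset.sum_add_distrib, Finset.mul_sum]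
    simp
  have h5 : ip z w = 8 * (z 0 * w 0) + 2 * z 0 * (∑ i, t i) + 2 * w 0 * (∑ i, s i) +
      4 * ∑ i, s i * t i := by
    unfold ip
    have : ∀ i, z i * w i = z 0 * w 0 + 2 * z 0 * t i + 2 * w 0 * s i + 4 * (s i * t i) := by
      intro i; rw [hz i, hw i]
      have e0 : s 0 = 0 := by have := hs 0; simp at this; exact this
      have e1 : t 0 = 0 := by have := ht 0; simp at this; exact this
      ring
    rw [Finset.sum_congr rfl fun i _ => this i]
    simp only [Finset.sum_add_distrib, ← Finset.mul_sum]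
    simp
    ring
  have e1 : ∑ i, s i = 2 * m - 3 * z 0 := by linarith
  have e2 : ∑ i, t i = 2 * m' - 3 * w 0 := by linarith
  rw [h5, e1, e2]
  exact ⟨-(z 0 * w 0) + z 0 * m' + w 0 * m + ∑ i, s i * t i, by ring⟩

theorem ip_self_pos {z : Z8} (h : z ≠ 0) : 0 < ip z z := by
  obtain ⟨i, hi⟩ : ∃ i, z i ≠ 0 := by
    by_contra hc
    push Not at hc
    exact h (funext hc)
  unfold ip
  exact Finset.sum_pos' (fun j _ => mul_self_nonneg _) ⟨i, Finset.mem_univ _, mul_self_pos.2 hi⟩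

/-- distinct vectors: twice the inner product is less than the sum of the norms -/
theorem two_ip_lt {z w : Z8} (h : z ≠ w) : 2 * ip z w < ip z z + ip w w := by
  have h1 : 0 < ip (z + -w) (z + -w) := ip_self_pos (fun hc => h (by
    have := congrArg (fun u => u + w) hc
    simpa using this))
  have h2 : ip (z + -w) (z + -w) = ip z z + ip w w - 2 * ip z w := by
    unfold ip
    rw [Finset.mul_sum, ← Finset.sum_add_distrib, ← Finset.sum_sub_distrib]
    exact Finset.sum_congr rfl fun i _ => by simp only [Pi.add_apply, Pi.neg_apply]; ring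
  linarith

theorem neg_add_ip {z w : Z8} : ip (-z) (-w) = ip z w := by
  rw [ip_neg_left, ip_neg_right, neg_neg]

/-- vectors of norm 2 (roots), doubled norm 8 -/
def R (z : Z8) : Prop := L z ∧ ip z z = 8
/-- vectors of norm 4 -/
def A0 (z : Z8) : Prop := L z ∧ ip z z = 16
/-- vectors of norm 8 that are not twice a root -/
def Y (z : Z8) : Prop := L z ∧ ip z z = 32 ∧ ∀ w, L w → z ≠ w + w

theorem R.neg {z : Z8} (h : R z) : R (-z) := ⟨h.1.neg, by rw [neg_add_ip]; exact h.2⟩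
theorem A0.neg {z : Z8} (h : A0 z) : A0 (-z) := ⟨h.1.neg, by rw [neg_add_ip]; exact h.2⟩
theorem Y.neg {z : Z8} (h : Y z) : Y (-z) := ⟨h.1.neg, by rw [neg_add_ip]; exact h.2.1, by
  intro w hw hc
  refine h.2.2 (-w) hw.neg ?_
  rw [← neg_add, ← hc, neg_neg]⟩

theorem ip_le_AA {a b : Z8} (ha : A0 a) (hb : A0 b) (h : a ≠ b) : ip a b ≤ 12 := by
  have h1 := two_ip_lt h
  obtain ⟨m, hm⟩ := ha.1.dvd_ip hb.1
  rw [ha.2, hb.2] at h1
  omega

theorem ip_le_RR {a b : Z8} (ha : R a) (hb : R b) (h : a ≠ b) : ip a b ≤ 4 := by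
  have h1 := two_ip_lt h
  obtain ⟨m, hm⟩ := ha.1.dvd_ip hb.1
  rw [ha.2, hb.2] at h1
  omega

theorem ip_le_AR {a r : Z8} (ha : A0 a) (hr : R r) : ip a r ≤ 8 := by
  have h : a ≠ r := by rintro rfl; have := ha.2; have := hr.2; omega
  have h1 := two_ip_lt h
  obtain ⟨m, hm⟩ := ha.1.dvd_ip hr.1
  rw [ha.2, hr.2] at h1
  omega

theorem ip_le_AY {a y : Z8} (ha : A0 a) (hy : Y y) : ip a y ≤ 20 := by
  have h : a ≠ y := by rintro rfl; have := ha.2; have := hy.2.1; omega
  have h1 := two_ip_lt h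
  obtain ⟨m, hm⟩ := ha.1.dvd_ip hy.1
  rw [ha.2, hy.2.1] at h1
  omega

theorem ip_le_RY {r y : Z8} (hr : R r) (hy : Y y) : ip r y ≤ 12 := by
  have h : y ≠ r + r := hy.2.2 r hr.1
  have h1 := two_ip_lt h
  have h2 : ip y (r + r) = 2 * ip r y := by rw [ip_comm, ip_add_left]; ring
  have h3 : ip (r + r) (r + r) = 32 := by
    rw [ip_add_left, ip_comm r, ip_add_left, hr.2]; norm_num
  obtain ⟨m, hm⟩ := hr.1.dvd_ip hy.1
  rw [h2, h3, hy.2.1] at h1
  omega

theorem ip_le_YY {a b : Z8} (ha : Y a) (hb : Y b) (h : a ≠ b) : ip a b ≤ 28 := by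
  have h1 := two_ip_lt h
  obtain ⟨m, hm⟩ := ha.1.dvd_ip hb.1
  rw [ha.2.1, hb.2.1] at h1
  omega

theorem ip_le_AA' {a b : Z8} (ha : A0 a) (hb : A0 b) : ip a b ≤ 16 := by
  by_cases h : a = b
  · subst h; exact ha.2.le
  · have := ip_le_AA ha hb h; omega

theorem ip_le_RR' {a b : Z8} (ha : R a) (hb : R b) : ip a b ≤ 8 := by
  by_cases h : a = b
  · subst h; exact ha.2.le
  · have := ip_le_RR ha hb h; omega

theorem ip_le_YY' {a b : Z8} (ha : Y a) (hb : Y b) : ip a b ≤ 32 := by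
  by_cases h : a = b
  · subst h; exact ha.2.1.le
  · have := ip_le_YY ha hb h; omega

/-- reflection in a root -/
def rf (r z : Z8) : Z8 := z - (ip r z / 4) • r

theorem rf_L {r z : Z8} (hr : L r) (hz : L z) : L (rf r z) := by
  unfold rf
  rw [sub_eq_add_neg, ← neg_smul]
  exact hz.add (hr.zsmul _)

theorem ip_rf {r z : Z8} (hr : R r) (hz : L z) : ip (rf r z) (rf r z) = ip z z := by
  obtain ⟨m, hm⟩ := hr.1.dvd_ip hz
  have h4 : ip r z / 4 = m := by omega
  have h1 : rf r z = z + (-m) • r := by unfold rf; rw [h4, sub_eq_add_neg, neg_smul]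
  have hs : ∀ (k : ℤ) (u w : Z8), ip (k • u) w = k * ip u w := by
    intro k u w; unfold ip; rw [Finset.mul_sum]
    exact Finset.sum_congr rfl fun i _ => by simp only [Pi.smul_apply, smul_eq_mul]; ring
  rw [h1, ip_add_left, ip_comm z, ip_add_left, hs, hs, ip_comm r (z + -m • r), ip_add_left, hs,
    hr.2, ip_comm z r, hm]
  ring

theorem rf_A {r z : Z8} (hr : R r) (hz : A0 z) : A0 (rf r z) :=
  ⟨rf_L hr.1 hz.1, by rw [ip_rf hr hz.1]; exact hz.2⟩

theorem rf_R {r z : Z8} (hr : R r) (hz : R z) : R (rf r z) :=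
  ⟨rf_L hr.1 hz.1, by rw [ip_rf hr hz.1]; exact hz.2⟩

theorem rf_Y {r z : Z8} (hr : R r) (hz : Y z) : Y (rf r z) := by
  refine ⟨rf_L hr.1 hz.1, by rw [ip_rf hr hz.1]; exact hz.2.1, ?_⟩
  intro w hw hc
  obtain ⟨m, hm⟩ := hr.1.dvd_ip hz.1
  have h4 : ip r z / 4 = m := by omega
  obtain ⟨n, hn⟩ := hr.1.dvd_ip hw
  -- ip r (rf r z) = - ip r z
  have hs : ∀ (k : ℤ) (u w : Z8), ip (k • u) w = k * ip u w := by
    intro k u w; unfold ip; rw [Finset.mul_sum]
    exact Finset.sum_congr rfl fun i _ => by simp only [Pi.smul_apply, smul_eq_mul]; ring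
  have h1 : rf r z = z + (-m) • r := by unfold rf; rw [h4, sub_eq_add_neg, neg_smul]
  have h5 : ip r (rf r z) = -(4 * m) := by
    rw [h1, ip_comm, ip_add_left, hs, hr.2, ip_comm z r, hm]; ring
  have h6 : ip r (w + w) = 8 * n := by rw [ip_comm, ip_add_left, ip_comm w r, hn]; ring
  rw [hc, h6] at h5
  have h7 : m = 2 * (-n) := by omega
  refine hz.2.2 (w + (-n) • r) (hw.add (hr.1.zsmul _)) ?_
  have h8 : z = rf r z + m • r := by rw [h1, neg_smul]; abel
  rw [h8, hc, h7]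
  rw [mul_smul, two_smul]
  abel

end Pool.Agent.Helper1.SD.E8
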