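import Pool.Agent.Helper1.SD.E8Lat

set_option autoImplicit false

/-!
The reflection system of type `E₈` in `ℝ⁹`: the cone over the Gosset-Elte polytope `2_41`
and its dual.
-/

namespace Pool.Agent.Helper1.SD.E8

open Matrix

/-- real vector with doubled coordinates `z` and last coordinate `t` -/
noncomputable def emb (z : Z8) (t : ℝ) : Fin 9 → ℝ :=
  ![(z 0 : ℝ) / 2, (z 1 : ℝ) / 2, (z 2 : ℝ) / 2, (z 3 : ℝ) / 2, (z 4 : ℝ) / 2, (z 5 : ℝ) / 2,
    (z 6 : ℝ) / 2, (z 7 : ℝ) / 2, t]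

theorem ip_eq (z w : Z8) : ip z w = z 0 * w 0 + z 1 * w 1 + z 2 * w 2 + z 3 * w 3 + z 4 * w 4 +
    z 5 * w 5 + z 6 * w 6 + z 7 * w 7 := by
  unfold ip; rw [Fin.sum_univ_eight]

theorem dot_nine (x y : Fin 9 → ℝ) : x ⬝ᵥ y = x 0 * y 0 + x 1 * y 1 + x 2 * y 2 + x 3 * y 3 +
    x 4 * y 4 + x 5 * y 5 + x 6 * y 6 + x 7 * y 7 + x 8 * y 8 := by
  unfold dotProduct
  rw [Fin.sum_univ_castSucc, Fin.sum_univ_eight]
  rfl

theorem dot_emb (x : Fin 9 → ℝ) (z : Z8) (t : ℝ) : x ⬝ᵥ emb z t =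
    (x 0 * z 0 + x 1 * z 1 + x 2 * z 2 + x 3 * z 3 + x 4 * z 4 + x 5 * z 5 + x 6 * z 6 +
      x 7 * z 7) / 2 + x 8 * t := by
  rw [dot_nine]
  simp only [emb, cons_val]
  ring

theorem emb_dot (x : Fin 9 → ℝ) (z : Z8) (t : ℝ) : emb z t ⬝ᵥ x =
    (x 0 * z 0 + x 1 * z 1 + x 2 * z 2 + x 3 * z 3 + x 4 * z 4 + x 5 * z 5 + x 6 * z 6 +
      x 7 * z 7) / 2 + x 8 * t := by
  rw [dotProduct_comm, dot_emb]

theorem emb_dot_emb (z w : Z8) (t s : ℝ) :
    emb z t ⬝ᵥ emb w s = (ip z w : ℝ) / 4 + t * s := by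
  rw [dot_emb, ip_eq]
  simp only [emb, cons_val]
  push_cast
  ring

/-- simple roots -/
def αs : Fin 8 → Z8 :=
  ![![2, -2, 0, 0, 0, 0, 0, 0], ![0, 2, -2, 0, 0, 0, 0, 0], ![0, 0, 2, -2, 0, 0, 0, 0],
    ![0, 0, 0, 2, -2, 0, 0, 0], ![0, 0, 0, 0, 2, -2, 0, 0], ![0, 0, 0, 0, 0, 2, -2, 0],
    ![0, 0, 0, 0, 0, 0, 2, -2], ![-1, -1, -1, 1, 1, 1, 1, 1]]

theorem αs_R (i : Fin 8) : R (αs i) := by
  revert i
  unfold R L ip
  decide

theorem refl_emb {r z : Z8} (hr : R r) (hz : L z) (t : ℝ) :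
    refl (emb r 0) (emb z t) = emb (rf r z) t := by
  obtain ⟨m, hm⟩ := hr.1.dvd_ip hz
  have h4 : ip r z / 4 = m := by omega
  have hk : 2 * (emb r 0 ⬝ᵥ emb z t) / (emb r 0 ⬝ᵥ emb r 0) = m := by
    rw [emb_dot_emb, emb_dot_emb, hr.2, hm]
    push_cast
    ring
  unfold refl
  rw [hk]
  unfold rf
  rw [h4]
  ext i
  fin_cases i <;> simp [emb] <;> ring

def SA : Set (Fin 9 → ℝ) := {x | ∃ z, A0 z ∧ x = emb z 1}
def SB : Set (Fin 9 → ℝ) := {x | (∃ z, R z ∧ x = emb z 2) ∨ (∃ z, Y z ∧ x = emb z 5)}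

/-- special vectors of norm 4 -/
def w (i : Fin 8) : Z8 := fun j => if j = i then 3 else 1
def v5 : Z8 := ![2, 2, 2, 2, 0, 0, 0, 0]
def v5' : Z8 := ![0, 0, 0, 0, 2, 2, 2, 2]
/-- special roots -/
def rr (i : Fin 8) : Z8 := fun j => if j = i then -1 else 1
def y0 : Z8 := fun _ => 2

theorem w_A0 (i : Fin 8) : A0 (w i) := by
  revert i
  unfold A0 L ip w
  decide

theorem v5_A0 : A0 v5 := by
  unfold A0 L ip v5
  decide

theorem v5'_A0 : A0 v5' := by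
  unfold A0 L ip v5'
  decide

theorem rr_R (i : Fin 8) : R (rr i) := by
  revert i
  unfold R L ip rr
  decide

theorem y0_Y : Y y0 := by
  refine ⟨by unfold L y0; decide, by unfold ip y0; decide, ?_⟩
  intro u hu hc
  have h1 : ∀ i, u i = 1 := by
    intro i
    have := congrFun hc i
    simp only [y0, Pi.add_apply] at this
    omega
  have h2 := hu.2
  rw [Fin.sum_univ_eight] at h2
  simp only [h1] at h2
  omega

theorem finite_emb {P : Z8 → Prop} (t : ℝ) (h : ∀ z, P z → ip z z ≤ 32) :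
    {x | ∃ z, P z ∧ x = emb z t}.Finite := by
  have h1 : {z : Z8 | P z}.Finite := by
    refine (Set.finite_Icc (fun _ => -6 : Z8) (fun _ => 6)).subset ?_
    intro z hz
    have h2 : ∀ i, z i * z i ≤ 32 := by
      intro i
      refine le_trans ?_ (h z hz)
      unfold ip
      exact Finset.single_le_sum (f := fun i => z i * z i) (fun j _ => mul_self_nonneg _)
        (Finset.mem_univ i)
    exact ⟨fun i => by have := h2 i; show -6 ≤ z i; nlinarith,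
      fun i => by have := h2 i; show z i ≤ 6; nlinarith⟩
  refine (h1.image (fun z => emb z t)).subset ?_
  rintro x ⟨z, hz, rfl⟩
  exact ⟨z, hz, rfl⟩

theorem SA_finite : SA.Finite := finite_emb 1 fun z hz => by rw [hz.2]; norm_num

theorem SB_finite : SB.Finite := by
  have h1 := finite_emb (P := R) 2 fun z hz => by rw [hz.2]; norm_num
  have h2 := finite_emb (P := Y) 5 fun z hz => by rw [hz.2.1]
  exact (h1.union h2).subset (by
    rintro x (⟨z, hz, rfl⟩ | ⟨z, hz, rfl⟩)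
    · exact Or.inl ⟨z, hz, rfl⟩
    · exact Or.inr ⟨z, hz, rfl⟩)

/-- nine linearly independent vectors of `SA` -/
theorem SA_span : Submodule.span ℝ SA = ⊤ := by
  let f : Fin 9 → (Fin 9 → ℝ) := ![emb (w 0) 1, emb (w 1) 1, emb (w 2) 1, emb (w 3) 1,
    emb (w 4) 1, emb (w 5) 1, emb (w 6) 1, emb (w 7) 1, emb v5 1]
  have hli : LinearIndependent ℝ f := by
    rw [Fintype.linearIndependent_iff]
    intro g hg
    have e : ∀ j, ∑ i, g i * f i j = 0 := fun j => by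
      have := congrFun hg j
      simpa [Finset.sum_apply] using this
    have e0 := e 0
    have e1 := e 1
    have e2 := e 2
    have e3 := e 3
    have e4 := e 4
    have e5 := e 5
    have e6 := e 6
    have e7 := e 7
    have e8 := e 8
    rw [Fin.sum_univ_castSucc, Fin.sum_univ_eight] at e0 e1 e2 e3 e4 e5 e6 e7 e8
    simp [f, emb, w, v5] at e0 e1 e2 e3 e4 e5 e6 e7 e8
    intro i
    fin_cases i <;> simp <;> linarith
  have h1 : Submodule.span ℝ (Set.range f) = ⊤ :=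
    hli.span_eq_top_of_card_eq_finrank (by simp)
  rw [eq_top_iff, ← h1]
  refine Submodule.span_mono ?_
  rintro _ ⟨i, rfl⟩
  fin_cases i
  · exact ⟨w 0, w_A0 0, rfl⟩
  · exact ⟨w 1, w_A0 1, rfl⟩
  · exact ⟨w 2, w_A0 2, rfl⟩
  · exact ⟨w 3, w_A0 3, rfl⟩
  · exact ⟨w 4, w_A0 4, rfl⟩
  · exact ⟨w 5, w_A0 5, rfl⟩
  · exact ⟨w 6, w_A0 6, rfl⟩
  · exact ⟨w 7, w_A0 7, rfl⟩
  · exact ⟨v5, v5_A0, rfl⟩

/-- the reflection system -/
noncomputable def sys : RefSys 9 where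
  m := 8
  α := fun i => emb (αs i) 0
  ρ := ![12, 11, 10, 9, 8, 7, 6, 5, 0]
  pos := by
    intro i
    rw [emb_dot]
    fin_cases i <;> simp [αs] <;> norm_num
  A := SA
  B := SB
  finA := SA_finite
  finB := SB_finite
  spanA := SA_span
  reflA := by
    rintro i _ ⟨z, hz, rfl⟩
    rw [refl_emb (αs_R i) hz.1]
    exact ⟨_, rf_A (αs_R i) hz, rfl⟩
  reflB := by
    rintro i _ (⟨z, hz, rfl⟩ | ⟨z, hz, rfl⟩)
    · rw [refl_emb (αs_R i) hz.1]
      exact Or.inl ⟨_, rf_R (αs_R i) hz, rfl⟩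
    · rw [refl_emb (αs_R i) hz.1]
      exact Or.inr ⟨_, rf_Y (αs_R i) hz, rfl⟩

end Pool.Agent.Helper1.SD.E8
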