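import Pool.Agent.Helper42.SDSmallData
import Pool.Agent.Helper53.SDGood
import Pool.Agent.Helper79.SD5

set_option autoImplicit false

/-!
The small instances of the gluing construction: the pentagon and type `A₄`.
-/

namespace Pool.Agent.Helper1.SD

open Matrix

theorem dot3' (x y : Fin 3 → ℝ) : x ⬝ᵥ y = x 0 * y 0 + x 1 * y 1 + x 2 * y 2 := by
  simp [dotProduct, Fin.sum_univ_three]

theorem dot5' (x y : Fin 5 → ℝ) :
    x ⬝ᵥ y = x 0 * y 0 + x 1 * y 1 + x 2 * y 2 + x 3 * y 3 + x 4 * y 4 := by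
  simp [dotProduct, Fin.sum_univ_five]

/-- The dual bases of the pentagon instance. -/
def pentP : Fin 3 → (Fin 3 → ℝ) := ![![1, 0, 0], ![0, 1, 0], ![0, 0, 1]]

theorem goodCone_pentagon : ∃ K : Set (Fin 3 → ℝ), GoodCone 1 K := by
  have h := good_pentSys
  obtain ⟨hA, hB⟩ := h.dualAB
  obtain ⟨k1, k2⟩ := h.ks
  refine exists_goodCone (d := 2) (A := pentA) (B := pentB) finite_pentA finite_pentB hA hB k1 k2
    pentP pentP ?_ ?_ ?_ ?_ ?_ ?_
  · intro i j
    rw [dot3']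
    fin_cases i <;> fin_cases j <;> simp [pentP]
  · intro i
    fin_cases i
    · exact subset_coneOf _ (by simp [pentA, pentP])
    · exact subset_coneOf _ (by simp [pentA, pentP])
  · intro i
    fin_cases i <;> simp [pentB, pentP]
  · intro b hb
    simp only [pentB, Set.mem_insert_iff, Set.mem_singleton_iff] at hb
    rcases hb with rfl | rfl | rfl | rfl
    · right; rw [dot3']; simp [pentP]
    · right; rw [dot3']; simp [pentP]
    · left; simp [pentP]
    · right; rw [dot3']; simp [pentP]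
  · intro i
    fin_cases i
    · refine ⟨![0, 1, 1], by simp [pentA], ?_, ?_⟩ <;> rw [dot3'] <;> simp [pentP]
    · refine ⟨![1, 0, 1], by simp [pentA], ?_, ?_⟩ <;> rw [dot3'] <;> simp [pentP]
  · refine ⟨0, ![1, 0, 1], by simp [pentA], ![1, 1, -1], by simp [pentB], ?_, ?_, ?_, ?_⟩ <;>
      rw [dot3'] <;> simp [pentP]

/-- The second basis of the instance of type `A₄`. -/
def fourQ : Fin 5 → (Fin 5 → ℝ) :=
  ![Pi.single 1 1, Pi.single 2 1, Pi.single 3 1, Pi.single 4 1,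
    (fun _ => 1) - (2 : ℝ) • Pi.single 0 1]

/-- The first basis of the instance of type `A₄`. -/
def fourP : Fin 5 → (Fin 5 → ℝ) :=
  ![Pi.single 0 1 + Pi.single 1 1, Pi.single 0 1 + Pi.single 2 1, Pi.single 0 1 + Pi.single 3 1,
    Pi.single 0 1 + Pi.single 4 1, - Pi.single 0 1]

theorem goodCone_A4 : ∃ K : Set (Fin 5 → ℝ), GoodCone 2 K := by
  have h := good_fourSys
  obtain ⟨hA, hB⟩ := h.dualAB
  obtain ⟨k1, k2⟩ := h.ks
  refine exists_goodCone (d := 4) (A := fourA) (B := fourB) finite_fourA finite_fourB hA hB k1 k2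
    fourP fourQ ?_ ?_ ?_ ?_ ?_ ?_
  · intro i j
    rw [dot5']
    fin_cases i <;> fin_cases j <;> simp [fourP, fourQ] <;> norm_num
  · intro i
    fin_cases i
    · exact subset_coneOf _ ⟨0, 1, by decide, rfl⟩
    · exact subset_coneOf _ ⟨0, 2, by decide, rfl⟩
    · exact subset_coneOf _ ⟨0, 3, by decide, rfl⟩
    · exact subset_coneOf _ ⟨0, 4, by decide, rfl⟩
  · intro i
    fin_cases i
    · exact ⟨1, Or.inl rfl⟩
    · exact ⟨2, Or.inl rfl⟩
    · exact ⟨3, Or.inl rfl⟩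
    · exact ⟨4, Or.inl rfl⟩
    · exact ⟨0, Or.inr rfl⟩
  · rintro b ⟨i, rfl | rfl⟩
    · right
      change _ ⬝ᵥ (- Pi.single 0 1) ≤ (0 : ℝ)
      rw [dot5']
      fin_cases i <;> simp
    · by_cases hi : i = 0
      · subst hi
        left
        rfl
      · right
        change _ ⬝ᵥ (- Pi.single 0 1) ≤ (0 : ℝ)
        rw [dot5']
        fin_cases i
        · exact absurd rfl hi
        all_goals simp
  · intro i
    fin_cases i
    · refine ⟨Pi.single 2 1 + Pi.single 3 1, ⟨2, 3, by decide, rfl⟩, ?_, ?_⟩ <;>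
        rw [dot5'] <;> simp [fourQ]
    · refine ⟨Pi.single 1 1 + Pi.single 3 1, ⟨1, 3, by decide, rfl⟩, ?_, ?_⟩ <;>
        rw [dot5'] <;> simp [fourQ]
    · refine ⟨Pi.single 1 1 + Pi.single 2 1, ⟨1, 2, by decide, rfl⟩, ?_, ?_⟩ <;>
        rw [dot5'] <;> simp [fourQ]
    · refine ⟨Pi.single 1 1 + Pi.single 2 1, ⟨1, 2, by decide, rfl⟩, ?_, ?_⟩ <;>
        rw [dot5'] <;> simp [fourQ]
  · refine ⟨0, Pi.single 1 1 + Pi.single 2 1, ⟨1, 2, by decide, rfl⟩, Pi.single 0 1,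
      ⟨0, Or.inl rfl⟩, ?_, ?_, ?_, ?_⟩ <;>
      rw [dot5'] <;> simp [fourP, fourQ]

end Pool.Agent.Helper1.SD
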